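import Mathlib
import Pool.Agent.Lib_helper48.CNT.Final

/-!
Sign functions on the integers which are periodic or antiperiodic up to few exceptions; the signs of
the norms `N(n - w)` when `y = q (w + α)^2 + c` has a majority sign.
-/

namespace Pool.Agent.Lib_helper11.CUB4

open Pool.Agent.Lib_helper11.CUB Pool.Agent.Lib_helper3.QUI Pool.Agent.Lib_helper48.CNT Polynomial
open Pool.Agent.Lib_helper48.EVEN (Gen gen_affine gen_sq affine_not_mem)

/-- `f(m + k) = σ f(m)` for all but at most `M` of the `m` in `[A, B]`. -/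
def Per (f : ℤ → ℤ) (A B k σ : ℤ) (M : ℕ) : Prop :=
  ((Finset.Icc A B).filter (fun m => f (m + k) ≠ σ * f m)).card ≤ M

/-- `g(m) = ρ f(m - k)` for all but at most `M` of the `m` in `[A, B]`. -/
def Lk (f g : ℤ → ℤ) (A B k ρ : ℤ) (M : ℕ) : Prop :=
  ((Finset.Icc A B).filter (fun m => g m ≠ ρ * f (m - k))).card ≤ M

theorem out_card (A B k : ℤ) :
    ((Finset.Icc A B).filter (fun m => ¬ (A ≤ m + k ∧ m + k ≤ B))).card ≤ k.natAbs := by
  rcases le_total 0 k with hk | hk
  · have hsub : (Finset.Icc A B).filter (fun m => ¬ (A ≤ m + k ∧ m + k ≤ B)) ⊆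
        Finset.Ioc (B - k) B := by
      intro m hm
      rw [Finset.mem_filter, Finset.mem_Icc] at hm
      rw [Finset.mem_Ioc]
      omega
    refine (Finset.card_le_card hsub).trans ?_
    rw [Int.card_Ioc]
    omega
  · have hsub : (Finset.Icc A B).filter (fun m => ¬ (A ≤ m + k ∧ m + k ≤ B)) ⊆
        Finset.Ico A (A - k) := by
      intro m hm
      rw [Finset.mem_filter, Finset.mem_Icc] at hm
      rw [Finset.mem_Ico]
      omega
    refine (Finset.card_le_card hsub).trans ?_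
    rw [Int.card_Ico]
    omega

/-- Translation of exceptions inside an interval. -/
theorem shift_card {P : ℤ → Prop} [DecidablePred P] (A B k : ℤ) :
    ((Finset.Icc A B).filter (fun m => (A ≤ m + k ∧ m + k ≤ B) ∧ P (m + k))).card ≤
      ((Finset.Icc A B).filter P).card := by
  apply Finset.card_le_card_of_injOn (fun m => m + k)
  · intro m hm
    rw [Finset.mem_coe, Finset.mem_filter] at hm
    rw [Finset.mem_coe, Finset.mem_filter, Finset.mem_Icc]
    exact hm.2
  · intro a _ b _ hab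
    exact add_right_cancel hab

theorem Per.comp {f : ℤ → ℤ} {A B k σ k' σ' : ℤ} {M M' : ℕ} (h1 : Per f A B k σ M)
    (h2 : Per f A B k' σ' M') : Per f A B (k + k') (σ' * σ) (M + k.natAbs + M') := by
  have hsub : (Finset.Icc A B).filter (fun m => f (m + (k + k')) ≠ σ' * σ * f m) ⊆
      ((Finset.Icc A B).filter (fun m => f (m + k) ≠ σ * f m)) ∪
        ((Finset.Icc A B).filter (fun m => ¬ (A ≤ m + k ∧ m + k ≤ B))) ∪
        ((Finset.Icc A B).filter (fun m => (A ≤ m + k ∧ m + k ≤ B) ∧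
          f (m + k + k') ≠ σ' * f (m + k))) := by
    intro m hm
    simp only [Finset.mem_filter, Finset.mem_union] at hm ⊢
    by_cases a : f (m + k) = σ * f m
    · by_cases b : A ≤ m + k ∧ m + k ≤ B
      · right
        refine ⟨hm.1, b, fun c => hm.2 ?_⟩
        rw [← add_assoc, c, a, mul_assoc]
      · left; right; exact ⟨hm.1, b⟩
    · left; left; exact ⟨hm.1, a⟩
  have h3 := (shift_card (P := fun m => f (m + k') ≠ σ' * f m) A B k).trans h2
  exact (Finset.card_le_card hsub).trans ((Finset.card_union_le _ _).trans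
    (Nat.add_le_add ((Finset.card_union_le _ _).trans (Nat.add_le_add h1 (out_card A B k))) h3))

theorem Per.pow {f : ℤ → ℤ} {A B k σ : ℤ} {M : ℕ} (h1 : Per f A B k σ M) (r : ℕ) :
    Per f A B (r * k) (σ ^ r) (r * (M + k.natAbs)) := by
  induction r with
  | zero =>
    unfold Per
    simp
  | succ r ih =>
    have h2 := h1.comp ih
    have e1 : k + (r : ℤ) * k = ((r + 1 : ℕ) : ℤ) * k := by push_cast; ring
    have e2 : M + k.natAbs + r * (M + k.natAbs) = (r + 1) * (M + k.natAbs) := by ring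
    rw [e1, e2, ← pow_succ] at h2
    exact h2

theorem Per.unique {f : ℤ → ℤ} {A B k σ τ : ℤ} {M M' : ℕ} (hf : ∀ m, f m = 1 ∨ f m = -1)
    (h1 : Per f A B k σ M) (h2 : Per f A B k τ M') (hlt : ((M + M' : ℕ) : ℤ) < B + 1 - A) :
    σ = τ := by
  by_contra hne
  have hsub : Finset.Icc A B ⊆ ((Finset.Icc A B).filter (fun m => f (m + k) ≠ σ * f m)) ∪
      ((Finset.Icc A B).filter (fun m => f (m + k) ≠ τ * f m)) := by
    intro m hm
    simp only [Finset.mem_filter, Finset.mem_union]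
    by_cases a : f (m + k) = σ * f m
    · right
      refine ⟨hm, fun b => hne ?_⟩
      rw [a] at b
      rcases hf m with c | c <;> rw [c] at b <;> linarith
    · left; exact ⟨hm, a⟩
  have h3 := (Finset.card_le_card hsub).trans ((Finset.card_union_le _ _).trans
    (Nat.add_le_add h1 h2))
  rw [Int.card_Icc] at h3
  omega

theorem Lk.per {f g : ℤ → ℤ} {A B k ρ k' ρ' : ℤ} {M M' : ℕ} (h1 : Lk f g A B k ρ M)
    (h2 : Lk f g A B k' ρ' M') (hρ : ρ * ρ = 1) :
    Per f A B (k' - k) (ρ * ρ') (M + M' + k'.natAbs) := by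
  have hsub : (Finset.Icc A B).filter (fun m => f (m + (k' - k)) ≠ ρ * ρ' * f m) ⊆
      ((Finset.Icc A B).filter (fun m => (A ≤ m + k' ∧ m + k' ≤ B) ∧
          g (m + k') ≠ ρ * f (m + k' - k))) ∪
        ((Finset.Icc A B).filter (fun m => (A ≤ m + k' ∧ m + k' ≤ B) ∧
          g (m + k') ≠ ρ' * f (m + k' - k'))) ∪
        ((Finset.Icc A B).filter (fun m => ¬ (A ≤ m + k' ∧ m + k' ≤ B))) := by
    intro m hm
    simp only [Finset.mem_filter, Finset.mem_union] at hm ⊢
    by_cases b : A ≤ m + k' ∧ m + k' ≤ B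
    · left
      by_cases a : g (m + k') = ρ * f (m + k' - k)
      · right
        refine ⟨hm.1, b, fun c => hm.2 ?_⟩
        rw [a, add_sub_cancel_right] at c
        rw [← add_sub_assoc, mul_assoc, ← c, ← mul_assoc, hρ, one_mul]
      · left; exact ⟨hm.1, b, a⟩
    · right; exact ⟨hm.1, b⟩
  have h3 := (shift_card (P := fun m => g m ≠ ρ * f (m - k)) A B k').trans h1
  have h4 := (shift_card (P := fun m => g m ≠ ρ' * f (m - k')) A B k').trans h2
  exact (Finset.card_le_card hsub).trans ((Finset.card_union_le _ _).trans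
    (Nat.add_le_add ((Finset.card_union_le _ _).trans (Nat.add_le_add h3 h4)) (out_card A B k')))

/-- Comparison of two chains of translations. -/
theorem compare {f : ℤ → ℤ} {D N κ x k σ l τ : ℤ} {M M' r s : ℕ} (hf : ∀ m, f m = 1 ∨ f m = -1)
    (hD : 1 ≤ D) (hx : 1 ≤ x) {X : ℕ} (hX : x = X)
    (h1 : Per f (D * N * x) (D * κ * x) k σ (M * X)) (h2 : Per f (D * N * x) (D * κ * x) l τ (M' * X))
    (hkl : (r : ℤ) * k = s * l) (hκ : N + r * (M + k.natAbs) + s * (M' + l.natAbs) ≤ κ) :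
    σ ^ r = τ ^ s := by
  have p1 := h1.pow r
  have p2 := h2.pow s
  rw [hkl] at p1
  refine p1.unique hf p2 ?_
  have k0 : (0 : ℤ) ≤ k.natAbs := Int.natCast_nonneg _
  have l0 : (0 : ℤ) ≤ l.natAbs := Int.natCast_nonneg _
  have r0 : (0 : ℤ) ≤ r := Int.natCast_nonneg _
  have s0 : (0 : ℤ) ≤ s := Int.natCast_nonneg _
  have M0 : (0 : ℤ) ≤ M := Int.natCast_nonneg _
  have M0' : (0 : ℤ) ≤ M' := Int.natCast_nonneg _
  obtain ⟨S, hS⟩ : ∃ S : ℤ, S = (r : ℤ) * (M + k.natAbs) + s * (M' + l.natAbs) := ⟨_, rfl⟩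
  have hS0 : 0 ≤ S := by rw [hS]; positivity
  have e1 : (r : ℤ) * k.natAbs ≤ r * k.natAbs * x :=
    le_mul_of_one_le_right (mul_nonneg r0 k0) hx
  have e2 : (s : ℤ) * l.natAbs ≤ s * l.natAbs * x :=
    le_mul_of_one_le_right (mul_nonneg s0 l0) hx
  have e3 : ((r * (M * X + k.natAbs) + s * (M' * X + l.natAbs) : ℕ) : ℤ) ≤ S * x := by
    push_cast
    rw [← hX, hS]
    have : (r : ℤ) * (M * x + k.natAbs) + s * (M' * x + l.natAbs) =
        r * M * x + r * k.natAbs + s * M' * x + s * l.natAbs := by ring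
    have h' : ((r : ℤ) * (M + k.natAbs) + s * (M' + l.natAbs)) * x =
        r * M * x + r * k.natAbs * x + s * M' * x + s * l.natAbs * x := by ring
    push_cast at *
    linarith
  have e4 : S * x ≤ D * κ * x - D * N * x := by
    have h5 : S ≤ κ - N := by rw [hS]; linarith
    have h6 : S * x ≤ (κ - N) * x := mul_le_mul_of_nonneg_right h5 (by linarith)
    have h7 : (κ - N) * x ≤ D * ((κ - N) * x) := by
      apply le_mul_of_one_le_left _ hD
      exact mul_nonneg (by linarith) (by linarith)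
    have h8 : D * ((κ - N) * x) = D * κ * x - D * N * x := by ring
    linarith
  linarith

variable {K : Type*} [Field K] [NumberField K]

theorem neg_bot {w : K} (hw : w ∉ (⊥ : IntermediateField ℚ K)) :
    -w ∉ (⊥ : IntermediateField ℚ K) := by
  have := affine_not_mem hw (r := -1) (by norm_num) 0
  simpa using this

/-- The values for `-w` in terms of those for `w` and for `y = q (w + α)^2 + c`. -/
theorem link (hd : Odd (Module.finrank ℚ K)) {w : K} (hw : w ∉ (⊥ : IntermediateField ℚ K))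
    {α q c : ℚ} (hq : 0 < q) {y : K} (hy : y = (q : K) * (w + (α : K)) ^ 2 + (c : K)) {h : ℕ → ℤ}
    (hh : CM h) (m : ℚ) :
    G h (-w) m = H h q * G h y (q * (m - α) ^ 2 + c) * G h w (m - 2 * α) := by
  have hq0 : q ≠ 0 := hq.ne'
  have hqK : (q : K) ≠ 0 := by exact_mod_cast hq0
  have n1 : ((m - 2 * α : ℚ) : K) - w ≠ 0 := sub_ne_zero_of hw _
  have n2 : ((m : ℚ) : K) - -w ≠ 0 := sub_ne_zero_of (neg_bot hw) _
  have key : ((q * (m - α) ^ 2 + c : ℚ) : K) - y =
      (q : K) * ((((m - 2 * α : ℚ) : K) - w) * ((m : K) - -w)) := by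
    rw [hy]; push_cast; ring
  have e1 : G h y (q * (m - α) ^ 2 + c) = H h q * (G h w (m - 2 * α) * G h (-w) m) := by
    unfold G
    rw [key, H_norm_mul hh hqK (mul_ne_zero n1 n2), H_norm_q hd hh hq0, H_norm_mul hh n1 n2]
  rw [e1]
  have s1 := G_sq hh hw (m - 2 * α)
  have s2 := H_sq hh hq0
  linear_combination (-(G h (-w) m)) * s1 - (G h (-w) m) * (G h w (m - 2 * α) *
    G h w (m - 2 * α)) * s2

end Pool.Agent.Lib_helper11.CUB4
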