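import Mathlib
import Pool.Agent.Lib_helper11.CUB4.Per

/-!
If `y = q (w + α)^2 + c` has a majority sign, the signs of `-w` are translates of those of `w`.
-/

namespace Pool.Agent.Lib_helper11.CUB4

open Pool.Agent.Lib_helper11.CUB Pool.Agent.Lib_helper3.QUI Pool.Agent.Lib_helper48.CNT Polynomial
open Pool.Agent.Lib_helper48.EVEN (Gen gen_affine gen_sq affine_not_mem)

variable {K : Type*} [Field K] [NumberField K]

/-- The sign of `N(m / D - w)`. -/
noncomputable def F (h : ℕ → ℤ) (D : ℕ) (w : K) (m : ℤ) : ℤ := G h w ((m : ℚ) / D)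

theorem F_vals {h : ℕ → ℤ} (hh : CM h) (D : ℕ) {w : K} (hw : w ∉ (⊥ : IntermediateField ℚ K))
    (m : ℤ) : F h D w m = 1 ∨ F h D w m = -1 := G_vals' hh hw _

/-- `y` is `q (w + α)^2 + c`; `D α` is the integer `a`, and `E q`, `E c` are integers. -/
structure Link (w y : K) (q : ℚ) (D E : ℕ) (a : ℤ) : Prop where
  pos : 0 < q
  rel : ∃ α c : ℚ, y = (q : K) * (w + (α : K)) ^ 2 + (c : K) ∧ (a : ℚ) = D * α ∧
    (∃ B : ℤ, (B : ℚ) = E * q) ∧ ∃ c' : ℤ, (c' : ℚ) = E * c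

theorem half (hd : Odd (Module.finrank ℚ K)) {w : K} (hw : w ∉ (⊥ : IntermediateField ℚ K))
    {q : ℚ} {y : K} {D E : ℕ} (hD : 1 ≤ D) (hE : 1 ≤ E) {a : ℤ} (hl : Link w y q D E a) :
    ∃ N1 : ℕ, ∀ N κ : ℕ, N1 ≤ N → ∃ C1 : ℚ, ∀ C : ℚ, C1 ≤ C → ∀ h : ℕ → ℤ, CM h →
      ∀ x : ℕ, 1 ≤ x → ∀ e : ℤ, Maj h (D ^ 2 * E) x (C * (x : ℚ) ^ 2) y e →
        Lk (F h D w) (F h D (-w)) (D * N * x) (D * κ * x) (2 * a) (H h q * e) x := by
  obtain ⟨hq, α, c, hy, ha, ⟨B, hB⟩, c', hc⟩ := hl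
  obtain ⟨a0, ha0⟩ := exists_nat_ge |α|
  obtain ⟨N0, hN0⟩ := exists_nat_ge ((1 + |c|) / q)
  rw [div_le_iff₀ hq] at hN0
  have hc0 := abs_nonneg c
  have hα1 := le_abs_self α
  have hα2 := neg_abs_le α
  have hc1 := le_abs_self c
  have hc2 := neg_abs_le c
  have ha0' : (0 : ℚ) ≤ a0 := Nat.cast_nonneg _
  have hN0' : (0 : ℚ) ≤ N0 := Nat.cast_nonneg _
  have hDq : (0 : ℚ) < D := by exact_mod_cast hD
  have hEq : (0 : ℚ) < E := by exact_mod_cast hE
  have hBpos : 0 < B := by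
    have : (0 : ℚ) < (B : ℚ) := by rw [hB]; positivity
    exact_mod_cast this
  refine ⟨1 + a0 + N0, fun N κ hN => ⟨q * (κ + a0) ^ 2 + |c|, fun C hC h hh x hx e hM => ?_⟩⟩
  have hNq : (1 : ℚ) + a0 + N0 ≤ N := by exact_mod_cast hN
  have hxq : (1 : ℚ) ≤ x := by exact_mod_cast hx
  have hx2 : (x : ℚ) ≤ (x : ℚ) ^ 2 := by nlinarith
  -- the size of `n = m / D - α`
  have low : ∀ m : ℤ, (D : ℤ) * N * x ≤ m → (x : ℚ) + N0 ≤ (m : ℚ) / D - α := by
    intro m hm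
    have h1 : (D : ℚ) * N * x ≤ m := by exact_mod_cast hm
    have h2 : (N : ℚ) * x ≤ (m : ℚ) / D := by
      rw [le_div_iff₀ hDq]; linarith
    have h3 : (1 + a0 + N0 : ℚ) * x ≤ N * x := mul_le_mul_of_nonneg_right hNq (by linarith)
    have h4 : (a0 : ℚ) * 1 ≤ a0 * x := mul_le_mul_of_nonneg_left hxq ha0'
    have h5 : (N0 : ℚ) * 1 ≤ N0 * x := mul_le_mul_of_nonneg_left hxq hN0'
    linarith
  have high : ∀ m : ℤ, m ≤ (D : ℤ) * κ * x → (m : ℚ) / D - α ≤ (κ + a0) * x := by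
    intro m hm
    have h1 : (m : ℚ) ≤ (D : ℚ) * κ * x := by exact_mod_cast hm
    have h2 : (m : ℚ) / D ≤ κ * x := by
      rw [div_le_iff₀ hDq]; linarith
    have h4 : (a0 : ℚ) * 1 ≤ a0 * x := mul_le_mul_of_nonneg_left hxq ha0'
    linarith
  have arg : ∀ m : ℤ, ((B * (m - a) ^ 2 + D ^ 2 * c' : ℤ) : ℚ) =
      ((D ^ 2 * E : ℕ) : ℚ) * (q * ((m : ℚ) / D - α) ^ 2 + c) := by
    intro m
    push_cast
    rw [hB, hc, ha]
    field_simp
  have hDE : (0 : ℚ) < ((D ^ 2 * E : ℕ) : ℚ) := by push_cast; positivity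
  unfold Maj at hM
  have hcard : ((Finset.Icc ((D : ℤ) * N * x) (D * κ * x)).filter (fun m =>
      F h D (-w) m ≠ H h q * e * F h D w (m - 2 * a))).card ≤
        (exc h (D ^ 2 * E) x (C * (x : ℚ) ^ 2) y e).card := by
    apply Finset.card_le_card_of_injOn (fun m => B * (m - a) ^ 2 + D ^ 2 * c')
    · intro m hm
      rw [Finset.mem_coe, Finset.mem_filter, Finset.mem_Icc] at hm
      obtain ⟨⟨h1, h2⟩, h3⟩ := hm
      have l1 := low m h1
      have l2 := high m h2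
      obtain ⟨n, hn⟩ : ∃ n : ℚ, n = (m : ℚ) / D - α := ⟨_, rfl⟩
      rw [Finset.mem_coe, mem_exc]
      dsimp only
      rw [arg m, ← hn]
      rw [← hn] at l1 l2
      have hn0 : 1 ≤ n := by linarith
      refine ⟨⟨?_, ?_⟩, ?_⟩
      · apply mul_le_mul_of_nonneg_left _ hDE.le
        have k1 : (1 + |c|) * n ≤ N0 * q * n := mul_le_mul_of_nonneg_right hN0 (by linarith)
        have k2 : N0 * (q * n) ≤ n * (q * n) :=
          mul_le_mul_of_nonneg_right (by linarith) (by positivity)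
        have k3 : |c| * 1 ≤ |c| * n := mul_le_mul_of_nonneg_left hn0 hc0
        have k4 : q * n ^ 2 = n * (q * n) := by ring
        rw [k4]; linarith
      · apply mul_le_mul_of_nonneg_left _ hDE.le
        have k1 : n ^ 2 ≤ ((κ + a0) * x) ^ 2 := pow_le_pow_left₀ (by linarith) l2 2
        have k2 : q * n ^ 2 ≤ q * ((κ + a0) * x) ^ 2 := mul_le_mul_of_nonneg_left k1 hq.le
        have k3 : (q * (κ + a0) ^ 2 + |c|) * (x : ℚ) ^ 2 ≤ C * (x : ℚ) ^ 2 :=
          mul_le_mul_of_nonneg_right hC (sq_nonneg _)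
        have k4 : |c| * 1 ≤ |c| * (x : ℚ) ^ 2 := mul_le_mul_of_nonneg_left (by linarith) hc0
        have k5 : (q * (κ + a0) ^ 2 + |c|) * (x : ℚ) ^ 2 =
            q * ((κ + a0) * x) ^ 2 + |c| * (x : ℚ) ^ 2 := by ring
        linarith
      · intro hcon
        apply h3
        rw [mul_div_cancel_left₀ _ hDE.ne'] at hcon
        unfold F
        rw [link hd hw hq hy hh ((m : ℚ) / D), ← hn, hcon]
        congr 2
        push_cast
        rw [ha]
        field_simp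
    · intro m hm m' hm' hmm
      rw [Finset.mem_coe, Finset.mem_filter, Finset.mem_Icc] at hm hm'
      have l1 := low m hm.1.1
      have l2 := low m' hm'.1.1
      have p1 : (0 : ℤ) ≤ m - a := by
        have : (0 : ℚ) ≤ ((m - a : ℤ) : ℚ) := by
          push_cast
          rw [ha]
          have e1 : (m : ℚ) - D * α = D * ((m : ℚ) / D - α) := by field_simp
          rw [e1]
          exact mul_nonneg hDq.le (by linarith)
        exact_mod_cast this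
      have p2 : (0 : ℤ) ≤ m' - a := by
        have : (0 : ℚ) ≤ ((m' - a : ℤ) : ℚ) := by
          push_cast
          rw [ha]
          have e1 : (m' : ℚ) - D * α = D * ((m' : ℚ) / D - α) := by field_simp
          rw [e1]
          exact mul_nonneg hDq.le (by linarith)
        exact_mod_cast this
      have h1 : (m - a) ^ 2 = (m' - a) ^ 2 := by
        apply mul_left_cancel₀ hBpos.ne'
        dsimp only at hmm
        linarith
      have := (pow_left_inj₀ p1 p2 (by norm_num)).1 h1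
      linarith
  unfold Lk
  refine hcard.trans ?_
  omega

/-- Two representations `y = q (w + α)^2 + c`, `y' = q' (w + α')^2 + c'`: the signs of `w` are
periodic or antiperiodic, up to few exceptions. -/
theorem step (hd : Odd (Module.finrank ℚ K)) {w : K} (hw : w ∉ (⊥ : IntermediateField ℚ K))
    {q q' : ℚ} {y y' : K} {D E : ℕ} (hD : 1 ≤ D) (hE : 1 ≤ E) {a a' : ℤ} (hl : Link w y q D E a)
    (hl' : Link w y' q' D E a') :
    ∃ N1 : ℕ, ∀ N κ : ℕ, N1 ≤ N → ∃ C1 : ℚ, ∀ C : ℚ, C1 ≤ C → ∀ h : ℕ → ℤ, CM h →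
      ∀ x : ℕ, 1 ≤ x → ∀ e e' : ℤ, (e = 1 ∨ e = -1) → (e' = 1 ∨ e' = -1) →
        Maj h (D ^ 2 * E) x (C * (x : ℚ) ^ 2) y e → Maj h (D ^ 2 * E) x (C * (x : ℚ) ^ 2) y' e' →
        Per (F h D w) (D * N * x) (D * κ * x) (2 * a' - 2 * a) (H h q * e * (H h q' * e'))
          ((2 + (2 * a').natAbs) * x) := by
  obtain ⟨N1, H1⟩ := half hd hw hD hE hl
  obtain ⟨N2, H2⟩ := half hd hw hD hE hl'
  refine ⟨N1 + N2, fun N κ hN => ?_⟩
  obtain ⟨C1, H1⟩ := H1 N κ (by omega)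
  obtain ⟨C2, H2⟩ := H2 N κ (by omega)
  refine ⟨max C1 C2, fun C hC h hh x hx e e' he he' m1 m2 => ?_⟩
  have k1 := H1 C ((le_max_left _ _).trans hC) h hh x hx e m1
  have k2 := H2 C ((le_max_right _ _).trans hC) h hh x hx e' m2
  have hρ : H h q * e * (H h q * e) = 1 := by
    have := H_sq hh hl.pos.ne'
    rcases he with rfl | rfl <;> linear_combination this
  refine (k1.per k2 hρ).trans ?_
  have : (2 * a').natAbs ≤ (2 * a').natAbs * x := Nat.le_mul_of_pos_right _ hx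
  have e1 : (2 + (2 * a').natAbs) * x = x + x + (2 * a').natAbs * x := by ring
  omega

/-- If `w` itself has a majority sign, all translations have the sign `1`. -/
theorem Maj.per {h : ℕ → ℤ} {D N κ x : ℕ} (hD : 1 ≤ D) (hN : 1 ≤ N) {C : ℚ}
    (hC : (κ : ℚ) ≤ C) (hx : 1 ≤ x) {w : K} {e : ℤ}
    (hM : Maj h D x (C * (x : ℚ) ^ 2) w e) (k : ℤ) :
    Per (F h D w) (D * N * x) (D * κ * x) k 1 ((2 + k.natAbs) * x) := by
  have hDq : (0 : ℚ) < D := by exact_mod_cast hD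
  have hxq : (1 : ℚ) ≤ x := by exact_mod_cast hx
  have hx2 : (x : ℚ) ≤ (x : ℚ) ^ 2 := by nlinarith
  have base : ((Finset.Icc ((D : ℤ) * N * x) (D * κ * x)).filter (fun m => F h D w m ≠ e)).card ≤
      (exc h D x (C * (x : ℚ) ^ 2) w e).card := by
    apply Finset.card_le_card
    intro m hm
    rw [Finset.mem_filter, Finset.mem_Icc] at hm
    obtain ⟨⟨h1, h2⟩, h3⟩ := hm
    rw [mem_exc]
    have h1' : (D : ℚ) * N * x ≤ m := by exact_mod_cast h1
    have h2' : (m : ℚ) ≤ (D : ℚ) * κ * x := by exact_mod_cast h2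
    have hNq : (1 : ℚ) ≤ N := by exact_mod_cast hN
    have hκ0 : (0 : ℚ) ≤ κ := Nat.cast_nonneg _
    refine ⟨⟨?_, ?_⟩, h3⟩
    · have : (D : ℚ) * x * 1 ≤ D * x * N := mul_le_mul_of_nonneg_left hNq (by positivity)
      linarith
    · have h4 : (κ : ℚ) * x ≤ C * (x : ℚ) ^ 2 :=
        mul_le_mul hC hx2 (by linarith) (by linarith)
      have h5 : (D : ℚ) * (κ * x) ≤ D * (C * (x : ℚ) ^ 2) := mul_le_mul_of_nonneg_left h4 hDq.le
      linarith
  have hsub : (Finset.Icc ((D : ℤ) * N * x) (D * κ * x)).filter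
      (fun m => F h D w (m + k) ≠ 1 * F h D w m) ⊆
      ((Finset.Icc ((D : ℤ) * N * x) (D * κ * x)).filter (fun m => F h D w m ≠ e)) ∪
        ((Finset.Icc ((D : ℤ) * N * x) (D * κ * x)).filter (fun m =>
          (D * N * x ≤ m + k ∧ m + k ≤ D * κ * x) ∧ F h D w (m + k) ≠ e)) ∪
        ((Finset.Icc ((D : ℤ) * N * x) (D * κ * x)).filter (fun m =>
          ¬ (D * N * x ≤ m + k ∧ m + k ≤ D * κ * x))) := by
    intro m hm
    simp only [Finset.mem_filter, Finset.mem_union] at hm ⊢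
    by_cases b : (D : ℤ) * N * x ≤ m + k ∧ m + k ≤ D * κ * x
    · left
      by_cases a : F h D w m = e
      · right
        refine ⟨hm.1, b, fun c => hm.2 ?_⟩
        rw [c, a, one_mul]
      · left; exact ⟨hm.1, a⟩
    · right; exact ⟨hm.1, b⟩
  have h3 := (shift_card (P := fun m => F h D w m ≠ e) (D * N * x) (D * κ * x) k).trans base
  have h4 := (Finset.card_le_card hsub).trans ((Finset.card_union_le _ _).trans
    (Nat.add_le_add ((Finset.card_union_le _ _).trans (Nat.add_le_add base h3))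
      (out_card (D * N * x) (D * κ * x) k)))
  unfold Maj at hM
  unfold Per
  refine h4.trans ?_
  have : k.natAbs ≤ k.natAbs * x := Nat.le_mul_of_pos_right _ hx
  have e1 : (2 + k.natAbs) * x = x + x + k.natAbs * x := by ring
  omega

/-- The signs of `w` on `(1/D)ℤ` have the translation `k` with sign `σ`, up to few exceptions. -/
def EvP (L : List K) (D E : ℕ) (w : K) (k : ℤ) (σ : (ℕ → ℤ) → (K → ℤ) → ℤ) (M : ℕ) : Prop :=
  ∃ N1 : ℕ, ∀ N κ : ℕ, N1 ≤ N → ∃ C1 : ℚ, ∀ C : ℚ, C1 ≤ C → ∀ h : ℕ → ℤ, CM h →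
    ∀ x : ℕ, 1 ≤ x → ∀ e : K → ℤ, (∀ z ∈ L, e z = 1 ∨ e z = -1) →
      (∀ z ∈ L, Maj h (D ^ 2 * E) x (C * (x : ℚ) ^ 2) z (e z)) →
      Per (F h D w) (D * N * x) (D * κ * x) k (σ h e) (M * x)

theorem EvP.of_links (hd : Odd (Module.finrank ℚ K)) {w : K}
    (hw : w ∉ (⊥ : IntermediateField ℚ K)) {q q' : ℚ} {y y' : K} {D E : ℕ} (hD : 1 ≤ D)
    (hE : 1 ≤ E) {a a' : ℤ} (hl : Link w y q D E a) (hl' : Link w y' q' D E a') {L : List K}
    (hy : y ∈ L) (hy' : y' ∈ L) :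
    EvP L D E w (2 * a' - 2 * a) (fun h e => H h q * e y * (H h q' * e y'))
      (2 + (2 * a').natAbs) := by
  obtain ⟨N1, H1⟩ := step hd hw hD hE hl hl'
  refine ⟨N1, fun N κ hN => ?_⟩
  obtain ⟨C1, H1⟩ := H1 N κ hN
  exact ⟨C1, fun C hC h hh x hx e hs hall => H1 C hC h hh x hx _ _ (hs y hy) (hs y' hy')
    (hall y hy) (hall y' hy')⟩

theorem EvP.of_maj {w : K} {D E : ℕ} (hD : 1 ≤ D) (hE : 1 ≤ E) {L : List K} (hw : w ∈ L) (k : ℤ) :
    EvP L D E w k (fun _ _ => 1) (2 + k.natAbs) := by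
  refine ⟨1, fun N κ hN => ⟨κ, fun C hC h hh x hx e hs hall => ?_⟩⟩
  have hDE : 1 ≤ D ^ 2 * E := Nat.mul_pos (pow_pos hD 2) hE
  exact Maj.per hD hN hC hx ((hall w hw).mono hD hDE ⟨D * E, by ring⟩ le_rfl) k

theorem EvP.compare {w : K} (hw : w ∉ (⊥ : IntermediateField ℚ K)) {D E : ℕ} (hD : 1 ≤ D)
    (hE : 1 ≤ E) {L : List K} {k l : ℤ} {σ τ : (ℕ → ℤ) → (K → ℤ) → ℤ} {M M' : ℕ}
    (h1 : EvP L D E w k σ M) (h2 : EvP L D E w l τ M') {r s : ℕ} (hkl : (r : ℤ) * k = s * l) :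
    Ev L (fun h e => σ h e ^ r = τ h e ^ s) := by
  obtain ⟨N1, h1⟩ := h1
  obtain ⟨N2, h2⟩ := h2
  obtain ⟨C1, h1⟩ := h1 (N1 + N2) (N1 + N2 + r * (M + k.natAbs) + s * (M' + l.natAbs)) (by omega)
  obtain ⟨C2, h2⟩ := h2 (N1 + N2) (N1 + N2 + r * (M + k.natAbs) + s * (M' + l.natAbs)) (by omega)
  refine ⟨D ^ 2 * E, Nat.mul_pos (pow_pos hD 2) hE, max 2 (max C1 C2), le_max_left _ _,
    fun h hh x hx e hs hall => ?_⟩
  have p1 := h1 _ ((le_max_left _ _).trans (le_max_right _ _)) h hh x hx e hs hall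
  have p2 := h2 _ ((le_max_right _ _).trans (le_max_right _ _)) h hh x hx e hs hall
  refine CUB4.compare (fun m => F_vals hh D hw m) (by exact_mod_cast hD) (by exact_mod_cast hx) rfl
    p1 p2 hkl ?_
  push_cast
  exact le_rfl

end Pool.Agent.Lib_helper11.CUB4
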