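import Mathlib
import Pool.Agent.Lib_helper11.CUB4.Half

/-!
The comparison of `w`, `-w` and `y = q (w + α)^2 + c` with general ranges.
-/

namespace Pool.Agent.Lib_helper11.CUB4

open Pool.Agent.Lib_helper11.CUB Pool.Agent.Lib_helper3.QUI Pool.Agent.Lib_helper48.CNT Polynomial
open Pool.Agent.Lib_helper48.EVEN (Gen gen_affine gen_sq affine_not_mem)

variable {K : Type*} [Field K] [NumberField K]

theorem half_gen (hd : Odd (Module.finrank ℚ K)) {w : K} (hw : w ∉ (⊥ : IntermediateField ℚ K))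
    {q : ℚ} {y : K} {D E : ℕ} (hD : 1 ≤ D) (hE : 1 ≤ E) {a : ℤ} (hl : Link w y q D E a) :
    ∃ N1 : ℕ, ∃ c0 : ℚ, 0 ≤ c0 ∧ ∀ h : ℕ → ℤ, CM h → ∀ x X : ℚ, 1 ≤ x → ∀ A B : ℤ,
      (D : ℚ) * N1 * x ≤ A → q * ((B : ℚ) / D + N1) ^ 2 + c0 ≤ X → ∀ e : ℤ,
        ((Finset.Icc A B).filter (fun m => F h D (-w) m ≠ H h q * e * F h D w (m - 2 * a))).card ≤
          (exc h (D ^ 2 * E) x X y e).card := by
  obtain ⟨hq, α, c, hy, ha, ⟨B', hB'⟩, c', hc⟩ := hl
  obtain ⟨a0, ha0⟩ := exists_nat_ge |α|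
  obtain ⟨N0, hN0⟩ := exists_nat_ge ((1 + |c|) / q)
  rw [div_le_iff₀ hq] at hN0
  have hc0 := abs_nonneg c
  have hα1 := le_abs_self α
  have hα2 := neg_abs_le α
  have hc1 := le_abs_self c
  have hc2 := neg_abs_le c
  have ha0' : (0 : ℚ) ≤ a0 := Nat.cast_nonneg _
  have hN0' : (0 : ℚ) ≤ N0 := Nat.cast_nonneg _
  have hDq : (0 : ℚ) < D := by exact_mod_cast hD
  have hEq : (0 : ℚ) < E := by exact_mod_cast hE
  have hBpos : 0 < B' := by
    have : (0 : ℚ) < (B' : ℚ) := by rw [hB']; positivity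
    exact_mod_cast this
  refine ⟨1 + a0 + N0, |c|, hc0, fun h hh x X hx A B hA hX e => ?_⟩
  have low : ∀ m : ℤ, A ≤ m → x + N0 ≤ (m : ℚ) / D - α := by
    intro m hm
    have h1 : (A : ℚ) ≤ m := by exact_mod_cast hm
    have h2 : ((1 + a0 + N0 : ℕ) : ℚ) * x ≤ (m : ℚ) / D := by
      rw [le_div_iff₀ hDq]; linarith
    push_cast at h2
    have h4 : (a0 : ℚ) * 1 ≤ a0 * x := mul_le_mul_of_nonneg_left hx ha0'
    have h5 : (N0 : ℚ) * 1 ≤ N0 * x := mul_le_mul_of_nonneg_left hx hN0'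
    linarith
  have high : ∀ m : ℤ, m ≤ B → (m : ℚ) / D - α ≤ (B : ℚ) / D + (1 + a0 + N0 : ℕ) := by
    intro m hm
    have h1 : (m : ℚ) ≤ B := by exact_mod_cast hm
    have h2 : (m : ℚ) / D ≤ (B : ℚ) / D := div_le_div_of_nonneg_right h1 hDq.le
    push_cast
    linarith
  have arg : ∀ m : ℤ, ((B' * (m - a) ^ 2 + D ^ 2 * c' : ℤ) : ℚ) =
      ((D ^ 2 * E : ℕ) : ℚ) * (q * ((m : ℚ) / D - α) ^ 2 + c) := by
    intro m
    push_cast
    rw [hB', hc, ha]
    field_simp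
  have hDE : (0 : ℚ) < ((D ^ 2 * E : ℕ) : ℚ) := by push_cast; positivity
  apply Finset.card_le_card_of_injOn (fun m => B' * (m - a) ^ 2 + D ^ 2 * c')
  · intro m hm
    rw [Finset.mem_coe, Finset.mem_filter, Finset.mem_Icc] at hm
    obtain ⟨⟨h1, h2⟩, h3⟩ := hm
    have l1 := low m h1
    have l2 := high m h2
    obtain ⟨n, hn⟩ : ∃ n : ℚ, n = (m : ℚ) / D - α := ⟨_, rfl⟩
    rw [Finset.mem_coe, mem_exc]
    dsimp only
    rw [arg m, ← hn]
    rw [← hn] at l1 l2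
    have hn0 : 1 ≤ n := by linarith
    refine ⟨⟨?_, ?_⟩, ?_⟩
    · apply mul_le_mul_of_nonneg_left _ hDE.le
      have k1 : (1 + |c|) * n ≤ N0 * q * n := mul_le_mul_of_nonneg_right hN0 (by linarith)
      have k2 : N0 * (q * n) ≤ n * (q * n) :=
        mul_le_mul_of_nonneg_right (by linarith) (by positivity)
      have k3 : |c| * 1 ≤ |c| * n := mul_le_mul_of_nonneg_left hn0 hc0
      have k4 : q * n ^ 2 = n * (q * n) := by ring
      rw [k4]; linarith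
    · apply mul_le_mul_of_nonneg_left _ hDE.le
      have k1 : n ^ 2 ≤ ((B : ℚ) / D + (1 + a0 + N0 : ℕ)) ^ 2 :=
        pow_le_pow_left₀ (by linarith) l2 2
      have k2 := mul_le_mul_of_nonneg_left k1 hq.le
      linarith
    · intro hcon
      apply h3
      rw [mul_div_cancel_left₀ _ hDE.ne'] at hcon
      unfold F
      rw [link hd hw hq hy hh ((m : ℚ) / D), ← hn, hcon]
      congr 2
      push_cast
      rw [ha]
      field_simp
  · intro m hm m' hm' hmm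
    rw [Finset.mem_coe, Finset.mem_filter, Finset.mem_Icc] at hm hm'
    have l1 := low m hm.1.1
    have l2 := low m' hm'.1.1
    have p1 : (0 : ℤ) ≤ m - a := by
      have : (0 : ℚ) ≤ ((m - a : ℤ) : ℚ) := by
        push_cast
        rw [ha]
        have e1 : (m : ℚ) - D * α = D * ((m : ℚ) / D - α) := by field_simp
        rw [e1]
        exact mul_nonneg hDq.le (by linarith)
      exact_mod_cast this
    have p2 : (0 : ℤ) ≤ m' - a := by
      have : (0 : ℚ) ≤ ((m' - a : ℤ) : ℚ) := by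
        push_cast
        rw [ha]
        have e1 : (m' : ℚ) - D * α = D * ((m' : ℚ) / D - α) := by field_simp
        rw [e1]
        exact mul_nonneg hDq.le (by linarith)
      exact_mod_cast this
    have h1 : (m - a) ^ 2 = (m' - a) ^ 2 := by
      apply mul_left_cancel₀ hBpos.ne'
      dsimp only at hmm
      linarith
    have := (pow_left_inj₀ p1 p2 (by norm_num)).1 h1
    linarith

/-- Monotonicity of the sets of exceptions. -/
theorem exc_mono {h : ℕ → ℤ} {D E : ℕ} (hD : 1 ≤ D) (hE : 1 ≤ E) {x X x' X' : ℚ} {z : K} {ε : ℤ}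
    (hDE : D ∣ E) (hx : x' ≤ x) (hX : X ≤ X') :
    (exc h D x X z ε).card ≤ (exc h E x' X' z ε).card := by
  obtain ⟨k, rfl⟩ := hDE
  have hk : 1 ≤ k := by
    rcases Nat.eq_zero_or_pos k with h0 | h0
    · rw [h0, mul_zero] at hE; omega
    · exact h0
  have hkq : (0 : ℚ) < k := by exact_mod_cast hk
  have hDq : (0 : ℚ) < D := by exact_mod_cast hD
  apply Finset.card_le_card_of_injOn (fun m => (k : ℤ) * m)
  · intro m hm
    rw [Finset.mem_coe, mem_exc] at hm ⊢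
    obtain ⟨⟨h1, h2⟩, h3⟩ := hm
    refine ⟨⟨?_, ?_⟩, ?_⟩
    · push_cast
      have k1 : (k : ℚ) * (D * x') ≤ k * (D * x) :=
        mul_le_mul_of_nonneg_left (mul_le_mul_of_nonneg_left hx hDq.le) hkq.le
      have k2 : (k : ℚ) * (D * x) ≤ k * m := mul_le_mul_of_nonneg_left h1 hkq.le
      linarith
    · push_cast
      have k1 : (k : ℚ) * (D * X) ≤ k * (D * X') :=
        mul_le_mul_of_nonneg_left (mul_le_mul_of_nonneg_left hX hDq.le) hkq.le
      have k2 : (k : ℚ) * m ≤ k * (D * X) := mul_le_mul_of_nonneg_left h2 hkq.le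
      linarith
    · have e : (((k : ℤ) * m : ℤ) : ℚ) / ((D * k : ℕ) : ℚ) = m / D := by
        push_cast; field_simp
      rw [e]; exact h3
  · intro a _ b _ hab
    have hk0 : (k : ℤ) ≠ 0 := by exact_mod_cast (by omega : k ≠ 0)
    exact mul_left_cancel₀ hk0 hab

/-- The second level: arguments of size `x`, and `y` at arguments of size `x^2`. -/
theorem half_scale (hd : Odd (Module.finrank ℚ K)) {w : K}
    (hw : w ∉ (⊥ : IntermediateField ℚ K)) {q : ℚ} {y : K} {D E : ℕ} (hD : 1 ≤ D) (hE : 1 ≤ E)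
    {a : ℤ} (hl : Link w y q D E a) :
    ∃ N1 : ℕ, ∀ N M0 κ' : ℕ, 1 ≤ N → N1 * N ≤ M0 → ∃ κ0 : ℕ, ∀ κ : ℕ, κ0 ≤ κ → ∀ h : ℕ → ℤ,
      CM h → ∀ x : ℕ, 1 ≤ x → ∀ e : ℤ,
        Lk (F h D w) (F h D (-w)) (D * M0 * x) (D * κ' * x) (2 * a) (H h q * e)
          (exc h (D ^ 2 * E) ((N : ℚ) * x) ((κ : ℚ) * (x : ℚ) ^ 2) y e).card := by
  obtain ⟨N1, c0, hc0, H1⟩ := half_gen hd hw hD hE hl
  have hDq : (0 : ℚ) < D := by exact_mod_cast hD
  refine ⟨N1, fun N M0 κ' hN hM => ?_⟩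
  obtain ⟨κ0, hκ0⟩ := exists_nat_ge (q * (κ' + N1) ^ 2 + c0)
  refine ⟨κ0, fun κ hκ h hh x hx e => ?_⟩
  have hxq : (1 : ℚ) ≤ x := by exact_mod_cast hx
  have hNq : (1 : ℚ) ≤ N := by exact_mod_cast hN
  have hx2 : (1 : ℚ) ≤ (x : ℚ) ^ 2 := one_le_pow₀ hxq
  have hκq : (κ0 : ℚ) ≤ κ := by exact_mod_cast hκ
  have hMq : (N1 : ℚ) * N ≤ M0 := by exact_mod_cast hM
  refine H1 h hh (N * x) _ (by nlinarith) _ _ ?_ ?_ e
  · push_cast
    have : (D : ℚ) * (N1 * N) * x ≤ D * M0 * x := by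
      apply mul_le_mul_of_nonneg_right _ (by linarith)
      exact mul_le_mul_of_nonneg_left hMq hDq.le
    linarith
  · push_cast
    have e1 : (D : ℚ) * κ' * x / D = κ' * x := by field_simp
    rw [e1]
    have h1 : (κ' : ℚ) * x + N1 ≤ (κ' + N1) * x := by
      have : (N1 : ℚ) * 1 ≤ N1 * x := mul_le_mul_of_nonneg_left hxq (Nat.cast_nonneg _)
      linarith
    have h2 : ((κ' : ℚ) * x + N1) ^ 2 ≤ ((κ' + N1) * x) ^ 2 := by
      apply pow_le_pow_left₀ _ h1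
      positivity
    have h3 := mul_le_mul_of_nonneg_left h2 hl.pos.le
    have h4 : (q * (κ' + N1) ^ 2 + c0) * (x : ℚ) ^ 2 ≤ κ * (x : ℚ) ^ 2 :=
      mul_le_mul_of_nonneg_right (hκ0.trans hκq) (by positivity)
    have h5 : c0 * 1 ≤ c0 * (x : ℚ) ^ 2 := mul_le_mul_of_nonneg_left hx2 hc0
    have h6 : (q * (κ' + N1) ^ 2 + c0) * (x : ℚ) ^ 2 =
        q * ((κ' + N1) * x) ^ 2 + c0 * (x : ℚ) ^ 2 := by ring
    linarith

end Pool.Agent.Lib_helper11.CUB4
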