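import Mathlib
import Pool.Agent.Lib_helper11.CUB.Exc
import Pool.Agent.Lib_helper11.CUB4.General

/-!
Cyclic cubic fields: the three conjugates of a generator, and the three quadratic representations by
`w = t - p β`.
-/

namespace Pool.Agent.Lib_helper11.CUB4

open Pool.Agent.Lib_helper11.CUB Pool.Agent.Lib_helper3.QUI Pool.Agent.Lib_helper48.CNT Polynomial

variable {K : Type*} [Field K] [NumberField K]

/-- The conjugates `β` and `γ = T - t - β`, with `t^2 = a β + y t + z`, `a > 0`. -/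
theorem exists_conj3 [IsGalois ℚ K] (h3 : Module.finrank ℚ K = 3) {θ : K}
    (hθ : θ ∉ (⊥ : IntermediateField ℚ K)) :
    ∃ (β γ : K) (a y z T : ℚ), 0 < a ∧ θ ^ 2 = a * β + y * θ + z ∧ Ind θ β ∧
      γ = (T : K) - θ - β ∧ (∀ (h : ℕ → ℤ) (n : ℚ), G h β n = G h θ n) ∧
      ∀ (h : ℕ → ℤ) (n : ℚ), G h γ n = G h θ n := by
  have hcard : Nat.card (K ≃ₐ[ℚ] K) = 3 := by rw [IsGalois.card_aut_eq_finrank, h3]
  have : Fact (Nat.Prime 3) := ⟨Nat.prime_three⟩
  have : Nontrivial (K ≃ₐ[ℚ] K) := by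
    rw [← Finite.one_lt_card_iff_nontrivial, hcard]; norm_num
  obtain ⟨σ, hσ⟩ := exists_ne (1 : K ≃ₐ[ℚ] K)
  have hσ3 : σ ^ 3 = 1 := by rw [← hcard]; exact pow_card_eq_one'
  have hs3 : ∀ x, σ (σ (σ x)) = x := by
    intro x
    have := congrArg (fun τ : K ≃ₐ[ℚ] K => τ x) hσ3
    simpa [pow_succ] using this
  have hrat : ∀ q : ℚ, σ (q : K) = (q : K) := by
    intro q
    have := σ.commutes q
    simpa using this
  -- fixed elements are rational
  have hfix : ∀ x : K, σ x = x → x ∈ (⊥ : IntermediateField ℚ K) := by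
    intro x hx
    rw [IsGalois.mem_bot_iff_fixed]
    intro τ
    have hτ : τ ∈ Subgroup.zpowers σ := mem_zpowers_of_prime_card hcard hσ
    obtain ⟨k, hk⟩ := Subgroup.mem_zpowers_iff.mp hτ
    have hstab : σ ∈ MulAction.stabilizer (K ≃ₐ[ℚ] K) x := by
      rw [MulAction.mem_stabilizer_iff]; exact hx
    have := (MulAction.stabilizer (K ≃ₐ[ℚ] K) x).zpow_mem hstab k
    rw [hk, MulAction.mem_stabilizer_iff] at this
    exact this
  have hI : Ind θ (σ θ) := by
    intro u v w e
    have hw : w = 0 := by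
      by_contra hw
      have hwK : (w : K) ≠ 0 := by exact_mod_cast hw
      obtain ⟨r, hr⟩ : ∃ r : ℚ, r = -v / w := ⟨_, rfl⟩
      obtain ⟨t, ht⟩ : ∃ t : ℚ, t = -u / w := ⟨_, rfl⟩
      have e1 : σ θ = r * θ + t := by
        rw [hr, ht]; push_cast; field_simp; linear_combination e
      have e2 : σ (σ θ) = r * (r * θ + t) + t := by
        have h0 := congrArg σ e1
        rw [map_add, map_mul, hrat, hrat] at h0
        rw [h0, e1]
      have e3 : θ = r * (r * (r * θ + t) + t) + t := by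
        have h0 := congrArg σ e2
        rw [hs3] at h0
        simp only [map_add, map_mul, hrat, e1] at h0
        exact h0
      have h4 := indep h3 hθ (u := 0) (v := r ^ 3 - 1) (w := (r ^ 2 + r + 1) * t) (by
        push_cast; linear_combination -e3)
      have hr1 : r = 1 := by
        have h5 : (r - 1) * (r ^ 2 + r + 1) = 0 := by linear_combination h4.2
        rcases mul_eq_zero.1 h5 with h6 | h6
        · linarith
        · nlinarith [sq_nonneg (r + 1 / 2)]
      rw [hr1] at e3
      have h7 : (t : K) = 0 := by push_cast at e3; linear_combination (-1 / 3) * e3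
      have h8 : t = 0 := by exact_mod_cast h7
      rw [hr1, h8] at e1
      push_cast at e1
      exact hθ (hfix θ (by rw [e1]; ring))
    have h1 := indep h3 hθ (u := 0) (v := v) (w := u) (by
      rw [hw] at e; push_cast at e ⊢; linear_combination e)
    refine ⟨?_, h1.2, hw⟩
    rw [hw, h1.2] at e
    have : (u : K) = 0 := by push_cast at e; linear_combination e
    exact_mod_cast this
  have hG : ∀ (h : ℕ → ℤ) (x : K) (n : ℚ), G h (σ x) n = G h x n := by
    intro h x n
    unfold G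
    have e : (n : K) - σ x = σ ((n : K) - x) := by rw [map_sub, hrat]
    rw [e, Algebra.norm_eq_of_algEquiv σ]
  obtain ⟨T, hT⟩ := mem_bot_iff.1 (hfix (θ + σ θ + σ (σ θ)) (by
    rw [map_add, map_add, hs3]; ring))
  obtain ⟨a, y, z, ha, e⟩ := exists_side h3 hI
  rcases lt_or_gt_of_ne ha with hneg | hpos
  · refine ⟨σ (σ θ), σ θ, -a, y - a, z + a * T, T, by linarith, ?_, ?_, ?_, ?_, fun h n => hG h θ n⟩
    · rw [e]; push_cast; rw [hT]; ring
    · intro u v w e'
      have e2 : σ (σ θ) = (T : K) - θ - σ θ := by rw [hT]; ring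
      rw [e2] at e'
      have := hI (u + w * T) (v - w) (-w) (by push_cast; linear_combination e')
      have hw : w = 0 := by linarith [this.2.2]
      refine ⟨?_, by linarith [this.2.1], hw⟩
      have h1 := this.1
      rw [hw] at h1; linarith
    · rw [hT]; ring
    · intro h n; rw [hG, hG]
  · refine ⟨σ θ, σ (σ θ), a, y, z, T, hpos, e, hI, ?_, fun h n => hG h θ n, fun h n => ?_⟩
    · rw [hT]; ring
    · rw [hG, hG]

/-- The representations of the three conjugates by `w = t - p β`. -/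
theorem reps (h3 : Module.finrank ℚ K = 3) {t β : K} (hI : Ind t β) (p : ℚ) :
    t - (p : K) * β ∉ (⊥ : IntermediateField ℚ K) ∧ ∃ κ μ ν ν' : ℚ, κ ≠ 0 ∧
      t = (((p * κ : ℚ)) : K) * (t - p * β) ^ 2 + ((1 + p * μ : ℚ) : K) * (t - p * β) + (ν : K) ∧
      β = (κ : K) * (t - p * β) ^ 2 + (μ : K) * (t - p * β) + (ν' : K) := by
  have hw : t - (p : K) * β ∉ (⊥ : IntermediateField ℚ K) := by
    intro hm
    obtain ⟨r, hr⟩ := mem_bot_iff.1 hm
    have := hI (-r) 1 (-p) (by push_cast; rw [hr]; ring)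
    exact one_ne_zero this.2.1
  refine ⟨hw, ?_⟩
  -- `1, w, w^2` is a basis
  have hI2 : Ind (t - (p : K) * β) ((t - (p : K) * β) ^ 2) := by
    intro u v w e
    have h1 := indep h3 hw (u := w) (v := v) (w := u) (by linear_combination e)
    refine ⟨?_, h1.2, h1.1⟩
    rw [h1.1, h1.2] at e
    have : (u : K) = 0 := by push_cast at e; linear_combination e
    exact_mod_cast this
  obtain ⟨ν', μ, κ, eβ⟩ := hI2.span h3 β
  have et : t = (((p * κ : ℚ)) : K) * (t - p * β) ^ 2 + ((1 + p * μ : ℚ) : K) * (t - p * β) +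
      ((p * ν' : ℚ) : K) := by
    push_cast
    linear_combination (p : K) * eβ
  refine ⟨κ, μ, p * ν', ν', ?_, et, by linear_combination eβ⟩
  intro hκ
  rw [hκ] at et eβ
  obtain ⟨w, hww⟩ : ∃ w : K, w = t - (p : K) * β := ⟨_, rfl⟩
  -- `β = μ w + ν'` and `w = t - p β`
  have e1 : ((-ν' : ℚ) : K) + ((-μ : ℚ) : K) * t + ((1 + p * μ : ℚ) : K) * β = 0 := by
    push_cast at eβ ⊢
    linear_combination eβ
  have := hI _ _ _ e1
  have hμ : μ = 0 := by linarith [this.2.1]
  have := this.2.2
  rw [hμ] at this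
  norm_num at this

end Pool.Agent.Lib_helper11.CUB4
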