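import Mathlib
import Pool.Agent.Lib_helper11.CUB4.Conj

/-!
The exceptions of `y = a β + c`, where `β` has the same signs as `t`, in terms of those of `t`.
-/

namespace Pool.Agent.Lib_helper11.CUB4

open Pool.Agent.Lib_helper11.CUB Pool.Agent.Lib_helper3.QUI Pool.Agent.Lib_helper48.CNT Polynomial

variable {K : Type*} [Field K] [NumberField K]

theorem G_affine (hd : Odd (Module.finrank ℚ K)) {β y : K}
    (hβ : β ∉ (⊥ : IntermediateField ℚ K)) {a c : ℚ} (ha : a ≠ 0)
    (hy : y = (a : K) * β + (c : K)) {h : ℕ → ℤ} (hh : CM h) (k : ℚ) :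
    G h y k = H h a * G h β ((k - c) / a) := by
  have haK : (a : K) ≠ 0 := by exact_mod_cast ha
  have n1 : (((k - c) / a : ℚ) : K) - β ≠ 0 := sub_ne_zero_of hβ _
  have key : (k : K) - y = (a : K) * ((((k - c) / a : ℚ) : K) - β) := by
    rw [hy]; push_cast; field_simp; ring
  unfold G
  rw [key, H_norm_mul hh haK n1, H_norm_q hd hh ha]

theorem exc_affine (hd : Odd (Module.finrank ℚ K)) {t β y : K}
    (hβ : β ∉ (⊥ : IntermediateField ℚ K)) {a c : ℚ} (ha : 0 < a)
    (hy : y = (a : K) * β + (c : K)) {h : ℕ → ℤ} (hh : CM h)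
    (hG : ∀ n : ℚ, G h β n = G h t n) {D D' : ℕ} (hD : 1 ≤ D) {j l : ℤ}
    (hj : (j : ℚ) * (D * a) = D') (hl : (l : ℚ) * a = D' * c) (hD' : 1 ≤ D') {x X x' X' : ℚ}
    (h1 : x' ≤ (x - c) / a) (h2 : (X - c) / a ≤ X') (e : ℤ) :
    (exc h D x X y (H h a * e)).card ≤ (exc h D' x' X' t e).card := by
  have hDq : (0 : ℚ) < D := by exact_mod_cast hD
  have hDq' : (0 : ℚ) < D' := by exact_mod_cast hD'
  have hj0 : (0 : ℚ) < j := by
    by_contra hcon
    push Not at hcon
    have : (j : ℚ) * (D * a) ≤ 0 := mul_nonpos_of_nonpos_of_nonneg hcon (by positivity)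
    linarith
  have hj1 : j ≠ 0 := by
    intro h0; rw [h0] at hj0; norm_num at hj0
  have arg : ∀ m : ℤ, ((j * m - l : ℤ) : ℚ) = D' * (((m : ℚ) / D - c) / a) := by
    intro m
    have e1 : (D' : ℚ) * (((m : ℚ) / D - c) / a) = (D' / (D * a)) * m - D' * c / a := by
      field_simp
    rw [e1, ← hj, mul_div_cancel_right₀ _ (by positivity), hj, ← hl,
      mul_div_cancel_right₀ _ ha.ne']
    push_cast; ring
  apply Finset.card_le_card_of_injOn (fun m => j * m - l)
  · intro m hm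
    rw [Finset.mem_coe, mem_exc] at hm ⊢
    obtain ⟨⟨g1, g2⟩, g3⟩ := hm
    have k1 : x ≤ (m : ℚ) / D := by rw [le_div_iff₀ hDq]; linarith
    have k2 : (m : ℚ) / D ≤ X := by rw [div_le_iff₀ hDq]; linarith
    dsimp only
    rw [arg m]
    refine ⟨⟨?_, ?_⟩, ?_⟩
    · apply mul_le_mul_of_nonneg_left _ hDq'.le
      refine h1.trans ?_
      exact div_le_div_of_nonneg_right (by linarith) ha.le
    · apply mul_le_mul_of_nonneg_left _ hDq'.le
      refine le_trans ?_ h2
      exact div_le_div_of_nonneg_right (by linarith) ha.le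
    · rw [mul_div_cancel_left₀ _ hDq'.ne', ← hG]
      intro hcon
      apply g3
      rw [G_affine hd hβ ha.ne' hy hh, hcon]
  · intro m _ m' _ hmm
    dsimp only at hmm
    exact mul_left_cancel₀ hj1 (by linarith)

end Pool.Agent.Lib_helper11.CUB4
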