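import Mathlib
import Pool.Agent.Lib_helper11.CUB4.Half

/-!
Cubic fields: for every `t` of degree three there are three (`p ≠ 2`) or four (every `p`) rational
numbers `r` such that one of the minimal polynomials of `v (t + r)^2` takes both signs more than
`x / 4` times in `[x, C x^2]`.
-/

namespace Pool.Agent.Lib_helper11.CUB4

open Pool.Agent.Lib_helper11.CUB Pool.Agent.Lib_helper3.QUI Pool.Agent.Lib_helper48.CNT Polynomial
open Pool.Agent.Lib_helper48.EVEN (Gen gen_affine gen_sq affine_not_mem)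

variable {K : Type*} [Field K] [NumberField K]

/-- `y_q = (t + q v / 2)^2`. -/
def ysq (t : K) (v q : ℚ) : K := (t + ((q * v / 2 : ℚ) : K)) ^ 2

/-- The two representations of `y_q`, by `t` and by `s = t^2`. -/
theorem links {t : K} {u v w : ℚ} (hs : (t ^ 2) ^ 2 = (u : K) + v * t + w * t ^ 2) (Q : List ℚ)
    (hQ : ∀ q ∈ Q, 0 < q) :
    ∃ D E : ℕ, 1 ≤ D ∧ 1 ≤ E ∧ ∀ q ∈ Q, ∃ a b : ℤ, Link t (ysq t v q) 1 D E a ∧
      Link (t ^ 2) (ysq t v q) q D E b ∧ 2 * (a : ℚ) = D * (q * v) ∧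
      2 * (b : ℚ) = D * (1 / q - w) := by
  obtain ⟨D, hD, hDl⟩ := common_den ((Q.map fun q => q * v / 2) ++ (Q.map fun q => (1 / q - w) / 2))
  obtain ⟨E, hE, hEl⟩ := common_den (1 :: 0 :: Q ++ (Q.map fun q =>
    (q * v / 2) ^ 2 - q * u - q * ((1 / q - w) / 2) ^ 2))
  refine ⟨D, E, hD, hE, fun q hq => ?_⟩
  have hq0 : 0 < q := hQ q hq
  have hqK : (q : K) ≠ 0 := by exact_mod_cast hq0.ne'
  obtain ⟨a, ha⟩ := mem_ZZ.1 (hDl (q * v / 2)
    (List.mem_append_left _ (List.mem_map.2 ⟨q, hq, rfl⟩)))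
  obtain ⟨b, hb⟩ := mem_ZZ.1 (hDl ((1 / q - w) / 2)
    (List.mem_append_right _ (List.mem_map.2 ⟨q, hq, rfl⟩)))
  have h1 := hEl 1 (by simp)
  have h0 := hEl 0 (by simp)
  have hqE := hEl q (by simp [hq])
  have hcE := hEl ((q * v / 2) ^ 2 - q * u - q * ((1 / q - w) / 2) ^ 2)
    (List.mem_append_right _ (List.mem_map.2 ⟨q, hq, rfl⟩))
  refine ⟨a, b, ⟨one_pos, q * v / 2, 0, ?_, ha, mem_ZZ.1 h1, mem_ZZ.1 h0⟩,
    ⟨hq0, (1 / q - w) / 2, (q * v / 2) ^ 2 - q * u - q * ((1 / q - w) / 2) ^ 2, ?_, hb,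
      mem_ZZ.1 hqE, mem_ZZ.1 hcE⟩, ?_, ?_⟩
  · unfold ysq; push_cast; ring
  · unfold ysq
    have e : (q : K) * (t ^ 2 + (((1 / q - w) / 2 : ℚ) : K)) ^ 2 = q * (t ^ 2) ^ 2 +
        (1 - q * w) * t ^ 2 + q * (((1 / q - w) / 2 : ℚ) : K) ^ 2 := by
      push_cast; field_simp; ring
    rw [e, hs]
    push_cast
    ring
  · rw [ha]; ring
  · rw [hb]; ring

theorem pm_sq {a : ℤ} (h : a = 1 ∨ a = -1) : a ^ 2 = 1 := by rcases h with h | h <;> rw [h] <;> rfl

theorem pm_even {a : ℤ} (h : a = 1 ∨ a = -1) {n : ℕ} (hn : Even n) : a ^ n = 1 := by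
  obtain ⟨k, rfl⟩ := hn
  rw [← two_mul, pow_mul, pm_sq h, one_pow]

theorem pm_odd {a : ℤ} (h : a = 1 ∨ a = -1) {n : ℕ} (hn : Odd n) : a ^ n = a := by
  obtain ⟨k, rfl⟩ := hn
  rw [pow_succ, pow_mul, pm_sq h, one_pow, one_mul]

theorem pm_mul {a b : ℤ} (h : a = 1 ∨ a = -1) (h' : b = 1 ∨ b = -1) : a * b = 1 ∨ a * b = -1 := by
  rcases h with h | h <;> rcases h' with h' | h' <;> rw [h, h'] <;> norm_num

theorem H_one {h : ℕ → ℤ} (hh : CM h) : H h 1 = 1 := by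
  have := H_nat hh 1
  rw [Nat.cast_one, hh.one] at this
  exact this

/-- Three squares for an odd prime. -/
theorem three_ev (h3 : Module.finrank ℚ K = 3) {t : K} (ht : t ∉ (⊥ : IntermediateField ℚ K))
    (hs : t ^ 2 ∉ (⊥ : IntermediateField ℚ K)) {u v w : ℚ}
    (he : (t ^ 2) ^ 2 = (u : K) + v * t + w * t ^ 2) {p : ℕ} (hp : p.Prime) (hp2 : p ≠ 2) :
    Ev [ysq t v 1, ysq t v 2, ysq t v p] (fun h _ => h p = 1) := by
  have hd : Odd (Module.finrank ℚ K) := by rw [h3]; decide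
  have hpq : (0 : ℚ) < p := by exact_mod_cast hp.pos
  obtain ⟨D, E, hD, hE, HL⟩ := links he [1, 2, (p : ℚ)] (by
    intro q hq
    simp only [List.mem_cons, List.not_mem_nil, or_false] at hq
    rcases hq with rfl | rfl | rfl
    · norm_num
    · norm_num
    · exact hpq)
  obtain ⟨a1, b1, l1, m1, e1, f1⟩ := HL 1 (by simp)
  obtain ⟨a2, b2, l2, m2, e2, f2⟩ := HL 2 (by simp)
  obtain ⟨ap, bp, lp, mp, ep, fp⟩ := HL p (by simp)
  obtain ⟨j, hj⟩ := hp.odd_of_ne_two hp2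
  have R1 := EvP.compare ht hD hE
    (EvP.of_links hd ht hD hE l1 l2 (L := [ysq t v 1, ysq t v 2, ysq t v p]) (by simp) (by simp))
    (EvP.of_links hd ht hD hE l1 lp (L := [ysq t v 1, ysq t v 2, ysq t v p]) (by simp) (by simp))
    (r := 2 * j) (s := 1) (by
      have hpj : (p : ℚ) = 2 * j + 1 := by exact_mod_cast hj
      have : (((2 * j : ℕ) : ℤ) : ℚ) * (2 * a2 - 2 * a1) = ((1 : ℕ) : ℤ) * (2 * ap - 2 * a1) := by
        rw [e1, e2, ep, hpj]; push_cast; ring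
      exact_mod_cast this)
  have R2 := EvP.compare hs hD hE
    (EvP.of_links hd hs hD hE m2 m1 (L := [ysq t v 1, ysq t v 2, ysq t v p]) (by simp) (by simp))
    (EvP.of_links hd hs hD hE mp m1 (L := [ysq t v 1, ysq t v 2, ysq t v p]) (by simp) (by simp))
    (r := 2 * (2 * j)) (s := p) (by
      have hpj : (p : ℚ) = 2 * j + 1 := by exact_mod_cast hj
      have : (((2 * (2 * j) : ℕ) : ℤ) : ℚ) * (2 * b1 - 2 * b2) = (p : ℤ) * (2 * b1 - 2 * bp) := by
        rw [f1, f2, fp]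
        push_cast
        field_simp
        rw [hpj]
        ring
      exact_mod_cast this)
  refine (((R1.and R2).and (Ev.signs [ysq t v 1, ysq t v 2, ysq t v p])).sub ?_).imp ?_
  · intro y hy
    simp only [List.cons_append, List.nil_append, List.mem_cons, List.not_mem_nil, or_false] at hy ⊢
    tauto
  · rintro h hh e ⟨⟨k1, k2⟩, k3⟩
    have v1 := k3 (ysq t v 1) (by simp)
    have v2 := k3 (ysq t v 2) (by simp)
    have vp := k3 (ysq t v p) (by simp)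
    have w2 := H_vals hh (two_ne_zero (α := ℚ))
    have wp : h p = 1 ∨ h p = -1 := hh.values p hp.one_lt.le
    rw [H_one hh, one_mul, one_mul, one_mul, pow_one, pm_even (pm_mul v1 v2) ⟨j, by ring⟩] at k1
    rw [H_one hh, one_mul, H_nat hh, pm_even (pm_mul (pm_mul w2 v2) v1) ⟨2 * j, by ring⟩,
      pm_odd (pm_mul (pm_mul wp vp) v1) (hp.odd_of_ne_two hp2)] at k2
    have : h p = h p * e (ysq t v p) * e (ysq t v 1) * (e (ysq t v 1) * e (ysq t v p)) := by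
      have s1 := pm_sq v1
      have sp := pm_sq vp
      linear_combination (-(h p) * e (ysq t v p) ^ 2) * s1 - h p * sp
    rw [this, ← k2, ← k1]; rfl

/-- Four squares for every prime. -/
theorem four_ev (h3 : Module.finrank ℚ K = 3) {t : K} (ht : t ∉ (⊥ : IntermediateField ℚ K))
    (hs : t ^ 2 ∉ (⊥ : IntermediateField ℚ K)) {u v w : ℚ}
    (he : (t ^ 2) ^ 2 = (u : K) + v * t + w * t ^ 2) {p : ℕ} (hp : p.Prime) :
    Ev [ysq t v 1, ysq t v p, ysq t v ((1 + p) / 2), ysq t v (2 * p / (p + 1))]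
      (fun h _ => h p = 1) := by
  have hd : Odd (Module.finrank ℚ K) := by rw [h3]; decide
  have hpq : (0 : ℚ) < p := by exact_mod_cast hp.pos
  obtain ⟨L, hL⟩ : ∃ L : List K, L = [ysq t v 1, ysq t v p, ysq t v ((1 + p) / 2),
    ysq t v (2 * p / (p + 1))] := ⟨_, rfl⟩
  rw [← hL]
  obtain ⟨D, E, hD, hE, HL⟩ := links he [1, (p : ℚ), (1 + p) / 2, 2 * p / (p + 1)] (by
    intro q hq
    simp only [List.mem_cons, List.not_mem_nil, or_false] at hq
    rcases hq with rfl | rfl | rfl | rfl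
    · norm_num
    · exact hpq
    · positivity
    · positivity)
  obtain ⟨a1, b1, l1, m1, e1, f1⟩ := HL 1 (by simp)
  obtain ⟨ap, bp, lp, mp, ep, fp⟩ := HL p (by simp)
  obtain ⟨a3, b3, l3, m3, e3, f3⟩ := HL ((1 + p) / 2) (by simp)
  obtain ⟨a4, b4, l4, m4, e4, f4⟩ := HL (2 * p / (p + 1)) (by simp)
  have R1 := EvP.compare ht hD hE
    (EvP.of_links hd ht hD hE l1 l3 (L := L) (by simp [hL]) (by simp [hL]))
    (EvP.of_links hd ht hD hE l1 lp (L := L) (by simp [hL]) (by simp [hL]))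
    (r := 2) (s := 1) (by
      have : ((2 : ℕ) : ℚ) * (2 * a3 - 2 * a1) = ((1 : ℕ) : ℤ) * (2 * ap - 2 * a1) := by
        rw [e1, e3, ep]; push_cast; ring
      exact_mod_cast this)
  have R2 := EvP.compare hs hD hE
    (EvP.of_links hd hs hD hE m4 m1 (L := L) (by simp [hL]) (by simp [hL]))
    (EvP.of_links hd hs hD hE mp m1 (L := L) (by simp [hL]) (by simp [hL]))
    (r := 2) (s := 1) (by
      have : ((2 : ℕ) : ℚ) * (2 * b1 - 2 * b4) = ((1 : ℕ) : ℤ) * (2 * b1 - 2 * bp) := by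
        rw [f1, f4, fp]
        push_cast
        field_simp
        ring
      exact_mod_cast this)
  refine (((R1.and R2).and (Ev.signs L)).sub ?_).imp ?_
  · intro y hy
    simp only [List.mem_append] at hy
    tauto
  · rintro h hh e ⟨⟨k1, k2⟩, k3⟩
    have v1 := k3 (ysq t v 1) (by simp [hL])
    have v3 := k3 (ysq t v ((1 + p) / 2)) (by simp [hL])
    have v4 := k3 (ysq t v (2 * p / (p + 1))) (by simp [hL])
    have vp := k3 (ysq t v p) (by simp [hL])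
    have w4 : H h (2 * p / (p + 1)) = 1 ∨ H h (2 * p / (p + 1)) = -1 := H_vals hh (by positivity)
    rw [H_one hh, one_mul, one_mul, one_mul, pow_one, pm_sq (pm_mul v1 v3)] at k1
    rw [H_one hh, one_mul, H_nat hh, pow_one, pm_sq (pm_mul (pm_mul w4 v4) v1)] at k2
    have : h p = h p * e (ysq t v p) * e (ysq t v 1) * (e (ysq t v 1) * e (ysq t v p)) := by
      have s1 := pm_sq v1
      have sp := pm_sq vp
      linear_combination (-(h p) * e (ysq t v p) ^ 2) * s1 - h p * sp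
    rw [this, ← k2, ← k1]; rfl

/-- Every cubic field: squares of translates. -/
theorem squares (h3 : Module.finrank ℚ K = 3) {t : K} (ht : t ∉ (⊥ : IntermediateField ℚ K))
    {p : ℕ} (hp : p.Prime) {k : ℕ} (hk : k = 4 ∨ k = 3 ∧ p ≠ 2) :
    ∃ R : List ℚ, R.length = k ∧ ∃ m : ℕ, 1 ≤ m ∧ ∀ v : ℕ, 1 ≤ v → m ∣ v →
      (∀ r ∈ R, IsIntegral ℤ ((v : K) * (t + (r : K)) ^ 2) ∧
        Irreducible (minpoly ℤ ((v : K) * (t + (r : K)) ^ 2)) ∧
        (minpoly ℤ ((v : K) * (t + (r : K)) ^ 2)).natDegree = 3) ∧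
      ∃ C : ℕ, ∀ h : ℕ → ℤ, CM h → h p = -1 → ∀ x : ℕ, 1 ≤ x → ∃ r ∈ R, ∀ s : ℤ,
        (s = 1 ∨ s = -1) → x < 4 * ((Finset.Icc x (C * x ^ 2)).filter (fun n : ℕ =>
          h ((minpoly ℤ ((v : K) * (t + (r : K)) ^ 2)).eval (n : ℤ)).natAbs = s)).card := by
  have hd : Odd (Module.finrank ℚ K) := by rw [h3]; decide
  have h1 : 1 < Module.finrank ℚ K := by rw [h3]; norm_num
  have hgt := gen_cubic h3 ht
  have hsq : ∀ r : ℚ, Gen ((t + (r : K)) ^ 2) := fun r => gen_sq hd (by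
    have := gen_affine hgt (r := 1) one_ne_zero r
    simpa using this)
  have hs : t ^ 2 ∉ (⊥ : IntermediateField ℚ K) := by
    have := (hsq 0).bot h1
    simpa using this
  have hI : Ind t (t ^ 2) := by
    intro u v w e
    have h1 := indep h3 ht (u := w) (v := v) (w := u) (by linear_combination e)
    refine ⟨?_, h1.2, h1.1⟩
    rw [h1.1, h1.2] at e
    have : (u : K) = 0 := by push_cast at e; linear_combination e
    exact_mod_cast this
  obtain ⟨u, v, w, he⟩ := hI.span h3 ((t ^ 2) ^ 2)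
  have main : ∃ Q : List ℚ, Q.length = k ∧ Ev (Q.map (ysq t v)) (fun h _ => h p = 1) := by
    rcases hk with rfl | ⟨rfl, hp2⟩
    · exact ⟨[1, (p : ℚ), (1 + p) / 2, 2 * p / (p + 1)], rfl, four_ev h3 ht hs he hp⟩
    · exact ⟨[1, 2, (p : ℚ)], rfl, three_ev h3 ht hs he hp hp2⟩
  obtain ⟨Q, hlen, hE⟩ := main
  have hG : ∀ y ∈ Q.map (ysq t v), Gen y := by
    intro y hy
    obtain ⟨q, -, rfl⟩ := List.mem_map.1 hy
    exact hsq _
  obtain ⟨m, hm, H⟩ := windows_count hd h1 hG hE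
  refine ⟨Q.map (fun q => q * v / 2), by rw [List.length_map, hlen], m, hm, fun n hn hmn => ?_⟩
  obtain ⟨hint, C, H⟩ := H n hn hmn
  refine ⟨fun r hr => ?_, C, fun h hh hhp x hx => ?_⟩
  · obtain ⟨q, hq, rfl⟩ := List.mem_map.1 hr
    have hz : ysq t v q ∈ Q.map (ysq t v) := List.mem_map.2 ⟨q, hq, rfl⟩
    obtain ⟨-, k1, k2⟩ := gen_poly (hG _ hz) hn (hint _ hz)
    exact ⟨hint _ hz, k1, by rw [h3] at k2; exact k2⟩
  · obtain ⟨z, hz, H'⟩ := H h hh (by rw [hhp]; norm_num) x hx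
    obtain ⟨q, hq, rfl⟩ := List.mem_map.1 hz
    exact ⟨_, List.mem_map.2 ⟨q, hq, rfl⟩, H'⟩

end Pool.Agent.Lib_helper11.CUB4
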