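import Mathlib
import Pool.Agent.Lib_helper11.CUB4.Affine
import Pool.Agent.Lib_helper48.PAIR.PairFinal

/-!
Cubic fields, every prime: the polynomials of `t` and of `s`, where `(t + r)^2 = a β + c` with `a > 0`
and `s` has the same signs as `β`; in particular one polynomial for cyclic cubic fields.
-/

namespace Pool.Agent.Lib_helper11.CUB4

open Pool.Agent.Lib_helper11.CUB Pool.Agent.Lib_helper3.QUI Pool.Agent.Lib_helper48.CNT Polynomial
open Pool.Agent.Lib_helper48.PAIR (EvE pair_ev windows_exp)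

variable {K : Type*} [Field K] [NumberField K]

/-- The signs of `t` and of `s` cannot both be almost constant if `(t + r)^2 = a β + c`, `a > 0`, and
`s` has the same signs as `β`. -/
theorem ev_affine (h3 : Module.finrank ℚ K = 3) {t β s : K}
    (ht : t ∉ (⊥ : IntermediateField ℚ K)) (hβ : β ∉ (⊥ : IntermediateField ℚ K)) {r a c : ℚ}
    (ha : 0 < a) (hsq : (t + (r : K)) ^ 2 = (a : K) * β + (c : K))
    (hG : ∀ (h : ℕ → ℤ) (n : ℚ), G h β n = G h s n) {p : ℕ} (hp : p.Prime) :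
    EvE 4 [t, s] (fun h _ => h p = 1) := by
  have hd : Odd (Module.finrank ℚ K) := by rw [h3]; decide
  -- `a β + c` is not `t`
  have hne : (a : K) * β + (c : K) ≠ t := by
    intro h0
    have h1 := indep h3 ht (u := 1) (v := 2 * r - 1) (w := r ^ 2) (by
      rw [h0] at hsq
      push_cast
      linear_combination hsq)
    exact one_ne_zero h1.1
  obtain ⟨D, hD, C, hC, H1⟩ := pair_ev h3 ht r hp
  rw [hsq] at H1
  have hDq : (0 : ℚ) < D := by exact_mod_cast hD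
  -- the denominators
  obtain ⟨D1, hD1, hl1⟩ := common_den [1 / (D * a), c / a]
  obtain ⟨j, hj⟩ := mem_ZZ.1 (hl1 (1 / (D * a)) (by simp))
  obtain ⟨l, hl⟩ := mem_ZZ.1 (hl1 (c / a) (by simp))
  have hj' : (j : ℚ) * (D * a) = D1 := by rw [hj]; field_simp
  have hl' : (l : ℚ) * a = D1 * c := by rw [hl]; field_simp
  -- the scale
  obtain ⟨N, hN⟩ := exists_nat_ge (a + |c| + 1)
  have hN1 : (1 : ℚ) ≤ N := by linarith [abs_nonneg c]
  have hN1' : 1 ≤ N := by exact_mod_cast hN1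
  have hN4 : (1 : ℚ) ≤ (N : ℚ) ^ 4 := one_le_pow₀ hN1
  have hDE : 1 ≤ D * D1 := Nat.mul_pos hD hD1
  obtain ⟨C', hC'⟩ : ∃ C' : ℚ, C' = C * (N : ℚ) ^ 4 + (C * (N : ℚ) ^ 4 + |c|) / a := ⟨_, rfl⟩
  have hCN4 : C ≤ C * (N : ℚ) ^ 4 := le_mul_of_one_le_right (by linarith) hN4
  have hrest : 0 ≤ (C * (N : ℚ) ^ 4 + |c|) / a := by positivity
  refine ⟨D * D1, hDE, C', by rw [hC']; linarith, fun h hh x hx e hs hall => ?_⟩
  have het := hs t List.mem_cons_self
  have hes := hs s (List.mem_cons_of_mem _ List.mem_cons_self)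
  have hcon : 4 * (exc h (D * D1) x (C' * (x : ℚ) ^ 4) t (e t)).card ≤ x :=
    hall t List.mem_cons_self
  have hcon' : 4 * (exc h (D * D1) x (C' * (x : ℚ) ^ 4) s (e s)).card ≤ x :=
    hall s (List.mem_cons_of_mem _ List.mem_cons_self)
  have hxq : (1 : ℚ) ≤ x := by exact_mod_cast hx
  have hx4 : (1 : ℚ) ≤ (x : ℚ) ^ 4 := one_le_pow₀ hxq
  have hNx : (x : ℚ) ≤ (N : ℚ) * x := by nlinarith
  have hNx1 : 1 ≤ N * x := Nat.mul_pos hN1' hx
  have hNx2 : x ≤ N * x := Nat.le_mul_of_pos_left x hN1'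
  have hHa : H h a = 1 ∨ H h a = -1 := H_vals hh ha.ne'
  have hCN : C * (((N * x : ℕ) : ℚ)) ^ 4 = C * (N : ℚ) ^ 4 * (x : ℚ) ^ 4 := by push_cast; ring
  -- the exceptions of `t` and of `a β + c` at the scale `N x`
  have k1 : 4 * (exc h D ((N * x : ℕ) : ℚ) (C * (((N * x : ℕ) : ℚ)) ^ 4) t (e t)).card ≤
      N * x := by
    have h1 := exc_mono (h := h) hD hDE (z := t) (ε := e t) (dvd_mul_right D D1)
      (x := ((N * x : ℕ) : ℚ)) (x' := (x : ℚ)) (X := C * (((N * x : ℕ) : ℚ)) ^ 4)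
      (X' := C' * (x : ℚ) ^ 4) (by push_cast; exact hNx) (by
        rw [hCN]
        apply mul_le_mul_of_nonneg_right _ (by positivity)
        rw [hC']; linarith)
    omega
  have k2 : 4 * (exc h D ((N * x : ℕ) : ℚ) (C * (((N * x : ℕ) : ℚ)) ^ 4)
      ((a : K) * β + (c : K)) (H h a * e s)).card ≤ N * x := by
    have h1 := exc_affine hd (t := s) (β := β) hβ ha rfl hh (fun n => hG h n) hD hj' hl' hD1
      (x := ((N * x : ℕ) : ℚ)) (X := C * (((N * x : ℕ) : ℚ)) ^ 4) (x' := (x : ℚ))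
      (X' := C' * (x : ℚ) ^ 4) (by
        rw [le_div_iff₀ ha]
        push_cast
        have e1 := le_abs_self c
        have e2 : (a + |c| + 1) * x ≤ N * x := mul_le_mul_of_nonneg_right hN (by linarith)
        have e3 : |c| * 1 ≤ |c| * x := mul_le_mul_of_nonneg_left hxq (abs_nonneg c)
        nlinarith) (by
        rw [div_le_iff₀ ha, hC', hCN]
        have e1 := neg_abs_le c
        have e3 : |c| * 1 ≤ |c| * (x : ℚ) ^ 4 := mul_le_mul_of_nonneg_left hx4 (abs_nonneg c)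
        have e4 : (C * (N : ℚ) ^ 4 + (C * (N : ℚ) ^ 4 + |c|) / a) * (x : ℚ) ^ 4 * a =
            C * (N : ℚ) ^ 4 * a * (x : ℚ) ^ 4 + (C * (N : ℚ) ^ 4 + |c|) * (x : ℚ) ^ 4 := by
          field_simp
        rw [e4]
        have e5 : 0 ≤ C * (N : ℚ) ^ 4 * a * (x : ℚ) ^ 4 := by positivity
        nlinarith) (e s)
    have h2 := exc_mono (h := h) hD1 hDE (z := s) (ε := e s) (dvd_mul_left D1 D)
      (x := (x : ℚ)) (x' := (x : ℚ)) (X := C' * (x : ℚ) ^ 4) (X' := C' * (x : ℚ) ^ 4) le_rfl le_rfl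
    omega
  classical
  refine H1 h hh (N * x) hNx1 (fun w => if w = t then e t else H h a * e s) ?_ ?_
  · intro w _
    split_ifs with hw
    · exact het
    · rcases hHa with b | b <;> rcases hes with b' | b' <;> rw [b, b'] <;> norm_num
  · intro w hw
    simp only [List.mem_cons, List.not_mem_nil, or_false] at hw
    rcases hw with rfl | rfl
    · rw [if_pos rfl]; exact k1
    · rw [if_neg hne]; exact k2

/-- Cyclic cubic fields: the sign of `t` cannot be almost constant. -/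
theorem cyclic_ev [IsGalois ℚ K] (h3 : Module.finrank ℚ K = 3) {t : K}
    (ht : t ∉ (⊥ : IntermediateField ℚ K)) {p : ℕ} (hp : p.Prime) :
    EvE 4 [t] (fun h _ => h p = 1) := by
  obtain ⟨β, -, a, y, z, -, ha, et, hI, -, hGβ, -⟩ := exists_conj3 h3 ht
  have hβ : β ∉ (⊥ : IntermediateField ℚ K) := by
    intro hm
    obtain ⟨k, hk⟩ := mem_bot_iff.1 hm
    have := hI (-k) 0 1 (by push_cast; rw [hk]; ring)
    exact one_ne_zero this.2.2
  -- `(t - y / 2)^2 = a β + z + y^2 / 4`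
  exact (ev_affine h3 ht hβ (r := -(y / 2)) (c := z + y ^ 2 / 4) ha
    (by push_cast; linear_combination et) hGβ hp).sub (by simp)

/-- Cyclic cubic fields: one polynomial, for every prime. -/
theorem cyclic_one [IsGalois ℚ K] (h3 : Module.finrank ℚ K = 3) {t : K}
    (ht : t ∉ (⊥ : IntermediateField ℚ K)) {p : ℕ} (hp : p.Prime) :
    ∃ m : ℕ, 1 ≤ m ∧ ∀ v : ℕ, 1 ≤ v → m ∣ v → IsIntegral ℤ ((v : K) * t) ∧ ∃ C : ℕ,
      ∀ h : ℕ → ℤ, CM h → h p = -1 → ∀ x : ℕ, 1 ≤ x → ∀ s : ℤ, (s = 1 ∨ s = -1) →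
        x < 4 * ((Finset.Icc x (C * x ^ 4)).filter (fun n : ℕ =>
          h ((minpoly ℤ ((v : K) * t)).eval (n : ℤ)).natAbs = s)).card := by
  have hd : Odd (Module.finrank ℚ K) := by rw [h3]; decide
  have h1 : 1 < Module.finrank ℚ K := by rw [h3]; norm_num
  obtain ⟨m, hm, H1⟩ := windows_exp 4 hd h1 (L := [t])
    (fun y hy => by rw [List.mem_singleton.1 hy]; exact gen_cubic h3 ht) (Q := fun h => h p)
    (cyclic_ev h3 ht hp)
  refine ⟨m, hm, fun v hv hmv => ?_⟩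
  obtain ⟨hint, C, H2⟩ := H1 v hv hmv
  refine ⟨hint t List.mem_cons_self, C, fun h hh hhp x hx => ?_⟩
  obtain ⟨z, hz, H3⟩ := H2 h hh (by rw [hhp]; norm_num) x hx
  rwa [List.mem_singleton.1 hz] at H3

/-- Cubic fields, every prime: `t` and `s = α t^2 + β t + γ`, `α > 0`. -/
theorem quad_pair (h3 : Module.finrank ℚ K = 3) {t s : K}
    (ht : t ∉ (⊥ : IntermediateField ℚ K)) {α β γ : ℚ} (hα : 0 < α)
    (hs : s = (α : K) * t ^ 2 + (β : K) * t + (γ : K)) {p : ℕ} (hp : p.Prime) :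
    s ∉ (⊥ : IntermediateField ℚ K) ∧
    ∃ m : ℕ, 1 ≤ m ∧ ∀ v : ℕ, 1 ≤ v → m ∣ v → IsIntegral ℤ ((v : K) * t) ∧
      IsIntegral ℤ ((v : K) * s) ∧ ∃ C : ℕ,
      ∀ h : ℕ → ℤ, CM h → h p = -1 → ∀ x : ℕ, 1 ≤ x → ∃ z ∈ [t, s], ∀ ε : ℤ, (ε = 1 ∨ ε = -1) →
        x < 4 * ((Finset.Icc x (C * x ^ 4)).filter (fun n : ℕ =>
          h ((minpoly ℤ ((v : K) * z)).eval (n : ℤ)).natAbs = ε)).card := by
  have hd : Odd (Module.finrank ℚ K) := by rw [h3]; decide
  have h1 : 1 < Module.finrank ℚ K := by rw [h3]; norm_num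
  have hαK : (α : K) ≠ 0 := by exact_mod_cast hα.ne'
  have hsb : s ∉ (⊥ : IntermediateField ℚ K) := by
    intro hm
    obtain ⟨k, hk⟩ := mem_bot_iff.1 hm
    have h2 := indep h3 ht (u := α) (v := β) (w := γ - k) (by
      push_cast; rw [hk, hs]; ring)
    exact hα.ne' h2.1
  refine ⟨hsb, ?_⟩
  have hE : EvE 4 [t, s] (fun h _ => h p = 1) := by
    refine ev_affine h3 ht hsb (r := β / (2 * α)) (a := 1 / α)
      (c := (β / (2 * α)) ^ 2 - γ / α) (by positivity) ?_ (fun _ _ => rfl) hp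
    rw [hs]
    push_cast
    field_simp
    ring
  obtain ⟨m, hm, H1⟩ := windows_exp 4 hd h1 (L := [t, s])
    (fun y hy => by
      simp only [List.mem_cons, List.not_mem_nil, or_false] at hy
      rcases hy with rfl | rfl
      · exact gen_cubic h3 ht
      · exact gen_cubic h3 hsb) (Q := fun h => h p) hE
  refine ⟨m, hm, fun v hv hmv => ?_⟩
  obtain ⟨hint, C, H2⟩ := H1 v hv hmv
  exact ⟨hint t (by simp), hint s (by simp), C,
    fun h hh hhp x hx => H2 h hh (by rw [hhp]; norm_num) x hx⟩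

end Pool.Agent.Lib_helper11.CUB4
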