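import Mathlib
import Pool.Agent.Lib_helper11.CUB.Alg

/-!
The orientation of an element `z` of a cubic field: the sign of the determinant of `z` and `z^2` modulo
the rational numbers. Two elements of the same orientation are related by a polynomial of degree one or
two with a positive leading coefficient.
-/

namespace Pool.Agent.Lib_helper11.CUB4

open Pool.Agent.Lib_helper11.CUB Polynomial

variable {K : Type*} [Field K] [NumberField K]

/-- `v` is `a u + b` with `a > 0`. -/
def Aff (u v : K) : Prop := ∃ a b : ℚ, 0 < a ∧ v = (a : K) * u + (b : K)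

/-- `v` is `α u^2 + β u + γ` with `α > 0`. -/
def Qu (u v : K) : Prop := ∃ α β γ : ℚ, 0 < α ∧ v = (α : K) * u ^ 2 + (β : K) * u + (γ : K)

theorem orient (h3 : Module.finrank ℚ K = 3) {θ : K} (hθ : θ ∉ (⊥ : IntermediateField ℚ K)) :
    ∃ Φ : K → ℚ, (∀ z : K, z ∉ (⊥ : IntermediateField ℚ K) → Φ z ≠ 0) ∧
      ∀ u v : K, u ∉ (⊥ : IntermediateField ℚ K) → v ∉ (⊥ : IntermediateField ℚ K) →
        0 < Φ u * Φ v → Qu u v ∨ Qu v u ∨ Aff u v := by
  have hind : ∀ w : K, w ∉ (⊥ : IntermediateField ℚ K) → Ind w (w ^ 2) := by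
    intro w hw u v c e
    have h1 := indep h3 hw (u := c) (v := v) (w := u) (by linear_combination e)
    refine ⟨?_, h1.2, h1.1⟩
    rw [h1.1, h1.2] at e
    have : (u : K) = 0 := by push_cast at e; linear_combination e
    exact_mod_cast this
  have hspan : ∀ x : K, ∃ p q r : ℚ, x = (p : K) * θ ^ 2 + (q : K) * θ + (r : K) := by
    intro x
    obtain ⟨r, q, p, e⟩ := (hind θ hθ).span h3 x
    exact ⟨p, q, r, by rw [e]; ring⟩
  choose p q r hx using hspan
  have huniq : ∀ {a b c a' b' c' : ℚ}, (a : K) * θ ^ 2 + (b : K) * θ + (c : K) =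
      (a' : K) * θ ^ 2 + (b' : K) * θ + (c' : K) → a = a' ∧ b = b' := by
    intro a b c a' b' c' e
    have h1 := indep h3 hθ (u := a - a') (v := b - b') (w := c - c') (by
      push_cast; linear_combination e)
    exact ⟨by linarith [h1.1], by linarith [h1.2]⟩
  -- coordinates of `α u^2 + β u + γ`
  have hcomb : ∀ (u v : K) (α β γ : ℚ), v = (α : K) * u ^ 2 + (β : K) * u + (γ : K) →
      p v = α * p (u ^ 2) + β * p u ∧ q v = α * q (u ^ 2) + β * q u := by
    intro u v α β γ e
    apply huniq (c := r v) (c' := α * r (u ^ 2) + β * r u + γ)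
    rw [← hx v, e]
    push_cast
    linear_combination (α : K) * hx (u ^ 2) + (β : K) * hx u
  obtain ⟨Φ, hΦ⟩ : ∃ Φ : K → ℚ, ∀ z, Φ z = p z * q (z ^ 2) - q z * p (z ^ 2) :=
    ⟨_, fun _ => rfl⟩
  -- the determinant of `u` and `α u^2 + β u + γ`
  have hdet : ∀ (u v : K) (α β γ : ℚ), v = (α : K) * u ^ 2 + (β : K) * u + (γ : K) →
      p u * q v - q u * p v = α * Φ u := by
    intro u v α β γ e
    obtain ⟨e1, e2⟩ := hcomb u v α β γ e
    rw [e1, e2, hΦ]; ring
  have hquad : ∀ u v : K, u ∉ (⊥ : IntermediateField ℚ K) →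
      ∃ α β γ : ℚ, v = (α : K) * u ^ 2 + (β : K) * u + (γ : K) := by
    intro u v hu
    obtain ⟨c, b, a, e⟩ := (hind u hu).span h3 v
    exact ⟨a, b, c, by rw [e]; ring⟩
  refine ⟨Φ, fun z hz h0 => ?_, fun u v hu hv hpos => ?_⟩
  · rw [hΦ] at h0
    have e1 : ((-p z : ℚ) : K) * z ^ 2 + ((p (z ^ 2) : ℚ) : K) * z +
        ((p z * r (z ^ 2) - p (z ^ 2) * r z : ℚ) : K) = 0 := by
      have h0' : ((p z : ℚ) : K) * (q (z ^ 2) : K) - (q z : K) * (p (z ^ 2) : K) = 0 := by
        exact_mod_cast congrArg (fun y : ℚ => (y : K)) h0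
      push_cast
      linear_combination (-(p z : K)) * hx (z ^ 2) + (p (z ^ 2) : K) * hx z - θ * h0'
    have e2 : ((-q z : ℚ) : K) * z ^ 2 + ((q (z ^ 2) : ℚ) : K) * z +
        ((q z * r (z ^ 2) - q (z ^ 2) * r z : ℚ) : K) = 0 := by
      have h0' : ((p z : ℚ) : K) * (q (z ^ 2) : K) - (q z : K) * (p (z ^ 2) : K) = 0 := by
        exact_mod_cast congrArg (fun y : ℚ => (y : K)) h0
      push_cast
      linear_combination (-(q z : K)) * hx (z ^ 2) + (q (z ^ 2) : K) * hx z + θ ^ 2 * h0'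
    have k1 := (indep h3 hz e1).1
    have k2 := (indep h3 hz e2).1
    apply hz
    refine mem_bot_iff.2 ⟨r z, ?_⟩
    have k1' : p z = 0 := by linarith
    have k2' : q z = 0 := by linarith
    have h := hx z
    rw [k1', k2', Rat.cast_zero, zero_mul, zero_mul, zero_add, zero_add] at h
    exact h.symm
  · obtain ⟨α, β, γ, e⟩ := hquad u v hu
    obtain ⟨α', β', γ', e'⟩ := hquad v u hv
    have d1 := hdet u v α β γ e
    have d2 := hdet v u α' β' γ' e'
    have d3 : α * Φ u = -(α' * Φ v) := by rw [← d1, ← d2]; ring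
    have hu0 : Φ u ≠ 0 := fun h0 => by rw [h0, zero_mul] at hpos; exact lt_irrefl _ hpos
    have hv0 : Φ v ≠ 0 := fun h0 => by rw [h0, mul_zero] at hpos; exact lt_irrefl _ hpos
    rcases lt_trichotomy α 0 with h | h | h
    · -- `α' > 0`
      right; left
      refine ⟨α', β', γ', ?_, e'⟩
      by_contra hcon
      push Not at hcon
      have h1 : α * Φ u * Φ u = -(α' * (Φ u * Φ v)) := by rw [d3]; ring
      have h2 : α * (Φ u * Φ u) < 0 := mul_neg_of_neg_of_pos h (mul_self_pos.2 hu0)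
      have h3' : α' * (Φ u * Φ v) ≤ 0 := mul_nonpos_of_nonpos_of_nonneg hcon hpos.le
      nlinarith
    · -- affine
      right; right
      rw [h, Rat.cast_zero, zero_mul, zero_add] at e
      refine ⟨β, γ, ?_, e⟩
      have e2 : v ^ 2 = ((β ^ 2 : ℚ) : K) * u ^ 2 + ((2 * β * γ : ℚ) : K) * u +
          ((γ ^ 2 : ℚ) : K) := by rw [e]; push_cast; ring
      obtain ⟨f1, f2⟩ := hcomb u (v ^ 2) _ _ _ e2
      obtain ⟨g1, g2⟩ := hcomb u v 0 β γ (by rw [e]; push_cast; ring)
      have hv3 : Φ v = β ^ 3 * Φ u := by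
        rw [hΦ v, f1, f2, g1, g2, hΦ u]; ring
      rw [hv3] at hpos
      have h1 : 0 < β ^ 3 * (Φ u * Φ u) := by linarith
      have h2 : 0 < Φ u * Φ u := mul_self_pos.2 hu0
      have h3' : 0 < β ^ 3 := by
        by_contra hcon
        push Not at hcon
        have := mul_nonpos_of_nonpos_of_nonneg hcon h2.le
        linarith
      by_contra hcon
      push Not at hcon
      have : β ^ 3 ≤ 0 := by
        have : β ^ 3 = β * β ^ 2 := by ring
        rw [this]
        exact mul_nonpos_of_nonpos_of_nonneg hcon (sq_nonneg β)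
      linarith
    · left
      exact ⟨α, β, γ, h, e⟩

end Pool.Agent.Lib_helper11.CUB4
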