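import Mathlib
import Pool.Agent.Lib_helper11.CUB2.Any
import Pool.Agent.Lib_helper11.CUB3.Embed
import Pool.Agent.Lib_helper11.CUB4.Cyclic
import Pool.Agent.Lib_helper11.CUB4.Orient
import Pool.Agent.Lib_helper3.CUBL.Final
import Pool.Agent.Lib_helper3.QUI.OneB

/-!
Unavoidable tuples of polynomials: from number fields to algebraic complex numbers.
-/

namespace Pool.Agent.Lib_helper11.CUB4

open Pool.Agent.Lib_helper11.CUB Polynomial

/-- Each sign of `h(|f(n)|)` occurs for at least `(x / 4)^b` of the `n` in `[x, X]`. -/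
def Occ (b : ℕ) (h : ℕ → ℤ) (f : ℤ[X]) (x X : ℕ) : Prop :=
  ∀ s : ℤ, (s = 1 ∨ s = -1) → x ^ b ≤ 4 ^ b * ((Finset.Icc x X).filter (fun n : ℕ =>
    h (f.eval (n : ℤ)).natAbs = s)).card

/-- A `k`-tuple of irreducible polynomials of degree `d`, at least `l` of which take both signs in
`[x, C x^a]`. -/
def Unav (p d k l a b : ℕ) (T : Fin k → ℤ[X]) : Prop :=
  (∀ i, Irreducible (T i) ∧ (T i).natDegree = d) ∧
  ∃ C : ℕ, ∀ h : ℕ → ℤ, CM h → h p = -1 → ∀ x : ℕ, 1 ≤ x →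
    l ≤ {i : Fin k | Occ b h (T i) x (C * x ^ a)}.ncard

theorem Occ.mono {b : ℕ} {h : ℕ → ℤ} {f : ℤ[X]} {x X X' : ℕ} (H : Occ b h f x X) (hX : X ≤ X') :
    Occ b h f x X' := by
  intro s hs
  refine (H s hs).trans (Nat.mul_le_mul_left _ (Finset.card_le_card ?_))
  exact Finset.filter_subset_filter _ (Finset.Icc_subset_Icc_right hX)

theorem occ_zero {h : ℕ → ℤ} {f : ℤ[X]} {x X : ℕ}
    (H : ∀ s : ℤ, (s = 1 ∨ s = -1) → ∃ n : ℕ, x ≤ n ∧ n ≤ X ∧ h (f.eval (n : ℤ)).natAbs = s) :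
    Occ 0 h f x X := by
  intro s hs
  obtain ⟨n, h1, h2, h3⟩ := H s hs
  rw [pow_zero, pow_zero, one_mul]
  exact Finset.card_pos.2 ⟨n, Finset.mem_filter.2 ⟨Finset.mem_Icc.2 ⟨h1, h2⟩, h3⟩⟩

theorem occ_one {h : ℕ → ℤ} {f : ℤ[X]} {x X : ℕ}
    (H : ∀ s : ℤ, (s = 1 ∨ s = -1) → x < 4 * ((Finset.Icc x X).filter (fun n : ℕ =>
      h (f.eval (n : ℤ)).natAbs = s)).card) : Occ 1 h f x X := by
  intro s hs
  rw [pow_one, pow_one]
  exact (H s hs).le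

theorem one_le {k : ℕ} {P : Fin k → Prop} (H : ∃ i, P i) : 1 ≤ {i | P i}.ncard :=
  (Set.ncard_pos (Set.toFinite _)).2 H

theorem all_but_two {k : ℕ} {P : Fin (k + 2) → Prop}
    (H : ∀ i j l, i ≠ j → i ≠ l → j ≠ l → P i ∨ P j ∨ P l) : k ≤ {i | P i}.ncard := by
  have h1 : ({i | P i}ᶜ : Set (Fin (k + 2))).ncard ≤ 2 := by
    by_contra hcon
    push Not at hcon
    obtain ⟨i, j, l, hi, hj, hl, hij, hil, hjl⟩ := (Set.two_lt_ncard_iff (Set.toFinite _)).1 hcon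
    rcases H i j l hij hil hjl with h | h | h
    · exact hi h
    · exact hj h
    · exact hl h
  have h2 := Set.ncard_add_ncard_compl {i : Fin (k + 2) | P i}
  rw [Nat.card_eq_fintype_card, Fintype.card_fin] at h2
  omega

/-- One good polynomial. -/
theorem Unav.of {p d k a b : ℕ} {T : Fin k → ℤ[X]}
    (h1 : ∀ i, Irreducible (T i) ∧ (T i).natDegree = d)
    (h2 : ∃ C : ℕ, ∀ h : ℕ → ℤ, CM h → h p = -1 → ∀ x : ℕ, 1 ≤ x → ∃ i,
      Occ b h (T i) x (C * x ^ a)) : Unav p d k 1 a b T := by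
  obtain ⟨C, h2⟩ := h2
  exact ⟨h1, C, fun h hh hhp x hx => one_le (h2 h hh hhp x hx)⟩

theorem Unav.single {p d l a b : ℕ} {f : ℤ[X]} (H : Unav p d 1 l a b (fun _ => f)) :
    Unav p d 1 l a b ![f] := by
  have e : ![f] = fun _ => f := by funext i; fin_cases i; rfl
  rw [e]; exact H

section field

variable {K : Type} [Field K] [NumberField K]

omit [NumberField K] in
theorem natInt (v : ℕ) : IsIntegral ℤ (v : K) := by
  have := isIntegral_algebraMap (R := ℤ) (A := K) (x := (v : ℤ))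
  simpa using this

theorem int_mult (z : K) :
    ∃ N : ℕ, 1 ≤ N ∧ ∀ v : ℕ, N ∣ v → IsIntegral ℤ ((v : K) * z) := by
  obtain ⟨m, hm, H⟩ := Pool.Agent.Lib_helper3.QUI.common_int [z]
  refine ⟨m, hm, fun v hv => ?_⟩
  obtain ⟨k, rfl⟩ := hv
  have e : ((m * k : ℕ) : K) * z = (k : K) * ((m : K) * z) := by push_cast; ring
  rw [e]; exact (natInt k).mul (H z (by simp))

theorem irr_deg {t : K} (ht : IsIntegral ℤ t) {d : ℕ} (hd : (minpoly ℚ t).natDegree = d) :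
    Irreducible (minpoly ℤ t) ∧ (minpoly ℤ t).natDegree = d := by
  refine ⟨minpoly.irreducible ht, ?_⟩
  rw [← hd, minpoly.isIntegrallyClosed_eq_field_fractions' ℚ ht, (minpoly.monic ht).natDegree_map]

theorem irr_deg_three (h3 : Module.finrank ℚ K = 3) {t : K}
    (ht : t ∉ (⊥ : IntermediateField ℚ K)) {v : ℕ} (hv : 1 ≤ v)
    (hint : IsIntegral ℤ ((v : K) * t)) :
    Irreducible (minpoly ℤ ((v : K) * t)) ∧ (minpoly ℤ ((v : K) * t)).natDegree = 3 :=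
  irr_deg hint (deg_three h3 (nsmul_not_mem ht hv))

end field

/-- Cyclic cubic fields: one polynomial, windows `[x, C x^2]`. -/
theorem unav_cyclic {p : ℕ} (hp : p.Prime) {t : ℂ} {V : ℕ} (hd : (minpoly ℚ t).natDegree = 3)
    (hgal : IsGalois ℚ (IntermediateField.adjoin ℚ {t})) (hV : 1 ≤ V) :
    ∃ v : ℕ, 1 ≤ v ∧ V ∣ v ∧ Unav p 3 1 1 2 0 ![minpoly ℤ (v * t)] := by
  obtain ⟨K, _, _, φ, θ, hθ, h3, hG, hZ, hQ⟩ := CUB3.exists_field (by norm_num) hd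
  have := hG hgal
  have hdθ : (minpoly ℚ θ).natDegree = 3 := by rw [← hQ, hθ, hd]
  have hb := CUB3.not_bot (by norm_num) hdθ
  obtain ⟨N, hN, hint⟩ := int_mult θ
  have hNt := nsmul_not_mem hb hN
  obtain ⟨m, hm, H⟩ := Pool.Agent.Lib_helper3.CUBL.cyclic_count h3 (hint N dvd_rfl) hNt hp
  obtain ⟨C, hC⟩ := H (m * V) (Nat.mul_pos hm hV) (dvd_mul_right _ _)
  have hv1 : 1 ≤ m * V * N := Nat.mul_pos (Nat.mul_pos hm hV) hN
  have e : ((m * V : ℕ) : K) * ((N : K) * θ) = ((m * V * N : ℕ) : K) * θ := by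
    push_cast; ring
  rw [e, ← hZ] at hC
  have e2 : φ (((m * V * N : ℕ) : K) * θ) = ((m * V * N : ℕ) : ℂ) * t := by
    rw [map_mul, hθ, map_natCast]
  rw [e2] at hC
  refine ⟨m * V * N, hv1, ⟨m * N, by ring⟩, Unav.single (Unav.of (fun _ => ?_)
    ⟨C, fun h hh hhp x hx => ⟨0, occ_zero fun s hs => (hC h hh hhp s hs x hx).1⟩⟩)⟩
  rw [← e2, hZ]
  exact irr_deg_three h3 hb hv1 (hint _ (dvd_mul_left _ _))

/-- Cyclic cubic fields: one polynomial, power count. -/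
theorem unav_cyclic_power {p : ℕ} (hp : p.Prime) {t : ℂ} {V : ℕ}
    (hd : (minpoly ℚ t).natDegree = 3) (hgal : IsGalois ℚ (IntermediateField.adjoin ℚ {t}))
    (hV : 1 ≤ V) : ∃ v : ℕ, 1 ≤ v ∧ V ∣ v ∧ Unav p 3 1 1 4 1 ![minpoly ℤ (v * t)] := by
  obtain ⟨K, _, _, φ, θ, hθ, h3, hG, hZ, hQ⟩ := CUB3.exists_field (by norm_num) hd
  have := hG hgal
  have hdθ : (minpoly ℚ θ).natDegree = 3 := by rw [← hQ, hθ, hd]
  have hb := CUB3.not_bot (by norm_num) hdθ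
  obtain ⟨m, hm, H⟩ := cyclic_one h3 hb hp
  have hv1 : 1 ≤ m * V := Nat.mul_pos hm hV
  obtain ⟨hint, C, hC⟩ := H (m * V) hv1 (dvd_mul_right _ _)
  have e2 : φ (((m * V : ℕ) : K) * θ) = ((m * V : ℕ) : ℂ) * t := by
    rw [map_mul, hθ, map_natCast]
  rw [← hZ, e2] at hC
  refine ⟨m * V, hv1, dvd_mul_left _ _, Unav.single (Unav.of (fun _ => ?_)
    ⟨C, fun h hh hhp x hx => ⟨0, occ_one (hC h hh hhp x hx)⟩⟩)⟩
  rw [← e2, hZ]
  exact irr_deg_three h3 hb hv1 hint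

/-- Every irreducible cubic polynomial and a partner. -/
theorem unav_cubic {p : ℕ} (hp : p.Prime) {f : ℤ[X]} {u : ℂ} {V : ℕ} (hf : Irreducible f)
    (hfd : f.natDegree = 3) (hu : aeval u f = 0) (hV : 1 ≤ V) :
    ∃ v : ℕ, 1 ≤ v ∧ V ∣ v ∧ ∃ r : ℚ, (f.Monic → r = 0) ∧
      Unav p 3 2 1 4 0 ![f, minpoly ℤ (v * (u - r) ^ 2)] := by
  have hprim : f.IsPrimitive := hf.isPrimitive (by omega)
  have hirr : Irreducible (f.map (Int.castRingHom ℚ)) :=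
    (IsPrimitive.Int.irreducible_iff_irreducible_map_cast hprim).1 hf
  have hroot : aeval u (f.map (Int.castRingHom ℚ)) = 0 := by
    have : aeval u (f.map (algebraMap ℤ ℚ)) = aeval u f := aeval_map_algebraMap ℚ u f
    rw [← hu, ← this]; rfl
  have hd : (minpoly ℚ u).natDegree = 3 := by
    have hmin := minpoly.eq_of_irreducible hirr hroot
    have h3 : (f.map (Int.castRingHom ℚ)).leadingCoeff ≠ 0 := leadingCoeff_ne_zero.2 hirr.ne_zero
    rw [← hmin, natDegree_mul_C (inv_ne_zero h3), natDegree_map_eq_of_injective Int.cast_injective,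
      hfd]
  obtain ⟨K, _, _, φ, θ, hθ, h3, -, hZ, hQ⟩ := CUB3.exists_field (by norm_num) hd
  have hθf : aeval θ f = 0 := by
    apply φ.injective
    rw [map_zero, ← hu, ← hθ]
    exact (Polynomial.aeval_algHom_apply φ.toIntAlgHom θ f).symm
  obtain ⟨r, hr, H0⟩ := CUB2.any_cubic h3 hf hfd hθf
  obtain ⟨m, hm, H⟩ := H0 p hp
  have hub := CUB2.root_not_mem hf hfd hθf
  have hub' : θ - (r : K) ∉ (⊥ : IntermediateField ℚ K) := by
    intro h
    obtain ⟨w, hw⟩ := mem_bot_iff.1 h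
    exact hub (mem_bot_iff.2 ⟨w + r, by push_cast; rw [hw]; ring⟩)
  have hsq := sq_not_mem' h3 hub'
  obtain ⟨N, hN, hint⟩ := int_mult ((θ - (r : K)) ^ 2)
  have hv1 : 1 ≤ m * V * N := Nat.mul_pos (Nat.mul_pos hm hV) hN
  obtain ⟨C, hC⟩ := H (m * V * N) hv1 ⟨V * N, by ring⟩
  have e2 : φ (((m * V * N : ℕ) : K) * (θ - (r : K)) ^ 2) =
      ((m * V * N : ℕ) : ℂ) * (u - (r : ℂ)) ^ 2 := by
    rw [map_mul, map_pow, map_sub, hθ, map_natCast, map_ratCast]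
  rw [← hZ, e2] at hC
  refine ⟨m * V * N, hv1, ⟨m * N, by ring⟩, r, hr, Unav.of ?_ ⟨C, fun h hh hhp x hx => ?_⟩⟩
  · rw [Fin.forall_fin_two]
    refine ⟨⟨hf, hfd⟩, ?_⟩
    show Irreducible (minpoly ℤ (((m * V * N : ℕ) : ℂ) * (u - (r : ℂ)) ^ 2)) ∧
      (minpoly ℤ (((m * V * N : ℕ) : ℂ) * (u - (r : ℂ)) ^ 2)).natDegree = 3
    rw [← e2, hZ]
    exact irr_deg_three h3 hsq hv1 (hint _ (dvd_mul_left _ _))
  · rcases hC h hh hhp x hx with h1 | h1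
    · exact ⟨0, occ_zero h1⟩
    · exact ⟨1, occ_zero h1⟩

/-- The two polynomials of an element `t` of a cubic field and of `s = α t^2 + β t + γ`, `α > 0`. -/
theorem pair_field {K : Type} [Field K] [NumberField K] (h3 : Module.finrank ℚ K = 3) {t s : K}
    (ht : t ∉ (⊥ : IntermediateField ℚ K)) (hQ : Qu t s) {p : ℕ} (hp : p.Prime) :
    ∃ m : ℕ, 1 ≤ m ∧ ∀ v : ℕ, 1 ≤ v → m ∣ v → ∃ C : ℕ, ∀ h : ℕ → ℤ, CM h → h p = -1 →
      ∀ x : ℕ, 1 ≤ x → Occ 1 h (minpoly ℤ ((v : K) * t)) x (C * x ^ 4) ∨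
        Occ 1 h (minpoly ℤ ((v : K) * s)) x (C * x ^ 4) := by
  obtain ⟨α, β, γ, hα, hs⟩ := hQ
  obtain ⟨-, m, hm, H⟩ := quad_pair h3 ht hα hs hp
  refine ⟨m, hm, fun v hv hmv => ?_⟩
  obtain ⟨-, -, C, HC⟩ := H v hv hmv
  refine ⟨C, fun h hh hhp x hx => ?_⟩
  obtain ⟨z, hz, H'⟩ := HC h hh hhp x hx
  simp only [List.mem_cons, List.not_mem_nil, or_false] at hz
  rcases hz with rfl | rfl
  · exact Or.inl (occ_one H')
  · exact Or.inr (occ_one H')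

/-- A number `t` of degree three and `s = α t^2 + β t + γ`, `α > 0`. -/
theorem unav_pair {p : ℕ} (hp : p.Prime) {t : ℂ} {α β γ : ℚ} {V : ℕ}
    (hd : (minpoly ℚ t).natDegree = 3) (hα : 0 < α) (hV : 1 ≤ V) :
    ∃ v : ℕ, 1 ≤ v ∧ V ∣ v ∧ Unav p 3 2 1 4 1
      ![minpoly ℤ (v * t), minpoly ℤ (v * (α * t ^ 2 + β * t + γ))] := by
  obtain ⟨K, _, _, φ, θ, hθ, h3, -, hZ, hQ⟩ := CUB3.exists_field (by norm_num) hd
  have hdθ : (minpoly ℚ θ).natDegree = 3 := by rw [← hQ, hθ, hd]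
  have hb := CUB3.not_bot (by norm_num) hdθ
  obtain ⟨s, hs⟩ : ∃ s : K, s = (α : K) * θ ^ 2 + (β : K) * θ + (γ : K) := ⟨_, rfl⟩
  have hsb := (quad_pair h3 hb hα hs hp).1
  obtain ⟨m, hm, H⟩ := pair_field h3 hb ⟨α, β, γ, hα, hs⟩ hp
  obtain ⟨N, hN, hint⟩ := int_mult θ
  obtain ⟨N', hN', hint'⟩ := int_mult s
  obtain ⟨v, hv⟩ : ∃ v : ℕ, v = m * V * N * N' := ⟨_, rfl⟩
  have hv1 : 1 ≤ v := by
    rw [hv]; exact Nat.mul_pos (Nat.mul_pos (Nat.mul_pos hm hV) hN) hN'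
  have e1 : φ ((v : K) * θ) = (v : ℂ) * t := by rw [map_mul, hθ, map_natCast]
  have e2 : φ ((v : K) * s) = (v : ℂ) * (α * t ^ 2 + β * t + γ) := by
    rw [hs]
    simp only [map_mul, map_add, map_pow, map_natCast, map_ratCast, hθ]
  obtain ⟨C, HC⟩ := H v hv1 ⟨V * N * N', by rw [hv]; ring⟩
  refine ⟨v, hv1, ⟨m * N * N', by rw [hv]; ring⟩, Unav.of ?_ ⟨C, fun h hh hhp x hx => ?_⟩⟩
  · rw [Fin.forall_fin_two]
    constructor
    · show Irreducible (minpoly ℤ ((v : ℂ) * t)) ∧ (minpoly ℤ ((v : ℂ) * t)).natDegree = 3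
      rw [← e1, hZ]
      exact irr_deg_three h3 hb hv1 (hint v ⟨m * V * N', by rw [hv]; ring⟩)
    · show Irreducible (minpoly ℤ ((v : ℂ) * (α * t ^ 2 + β * t + γ))) ∧
        (minpoly ℤ ((v : ℂ) * (α * t ^ 2 + β * t + γ))).natDegree = 3
      rw [← e2, hZ]
      exact irr_deg_three h3 hsb hv1 (hint' v ⟨m * V * N, by rw [hv]; ring⟩)
  · rcases HC h hh hhp x hx with H' | H'
    · refine ⟨0, ?_⟩
      show Occ 1 h (minpoly ℤ ((v : ℂ) * t)) x _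
      rw [← e1, hZ]; exact H'
    · refine ⟨1, ?_⟩
      show Occ 1 h (minpoly ℤ ((v : ℂ) * (α * t ^ 2 + β * t + γ))) x _
      rw [← e2, hZ]; exact H'

/-- Elements of a cubic number field: all but at most two. -/
theorem many_field {K : Type} [Field K] [NumberField K] (h3 : Module.finrank ℚ K = 3) {p : ℕ}
    (hp : p.Prime) {θ : K} (hθ : θ ∉ (⊥ : IntermediateField ℚ K)) {k : ℕ} {w : Fin (k + 2) → K}
    (hw : ∀ i, w i ∉ (⊥ : IntermediateField ℚ K)) (hne : ∀ i j, i ≠ j → ¬ Aff (w i) (w j)) {V : ℕ}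
    (hV : 1 ≤ V) :
    ∃ v : ℕ, 1 ≤ v ∧ V ∣ v ∧ Unav p 3 (k + 2) k 4 1 (fun i => minpoly ℤ ((v : K) * w i)) := by
  obtain ⟨Φ, hΦ, HΦ⟩ := orient h3 hθ
  choose N hN HN using fun i => int_mult (w i)
  have hpair : ∀ i j, ∃ m : ℕ, 1 ≤ m ∧ ∀ v : ℕ, 1 ≤ v → m ∣ v → ∃ C : ℕ, i ≠ j →
      0 < Φ (w i) * Φ (w j) → ∀ h : ℕ → ℤ, CM h → h p = -1 → ∀ x : ℕ, 1 ≤ x →
        Occ 1 h (minpoly ℤ ((v : K) * w i)) x (C * x ^ 4) ∨
        Occ 1 h (minpoly ℤ ((v : K) * w j)) x (C * x ^ 4) := by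
    intro i j
    by_cases hij : i ≠ j ∧ 0 < Φ (w i) * Φ (w j)
    · rcases HΦ (w i) (w j) (hw i) (hw j) hij.2 with h1 | h1 | h1
      · obtain ⟨m, hm, H⟩ := pair_field h3 (hw i) h1 hp
        refine ⟨m, hm, fun v hv hmv => ?_⟩
        obtain ⟨C, HC⟩ := H v hv hmv
        exact ⟨C, fun _ _ h hh hhp x hx => HC h hh hhp x hx⟩
      · obtain ⟨m, hm, H⟩ := pair_field h3 (hw j) h1 hp
        refine ⟨m, hm, fun v hv hmv => ?_⟩
        obtain ⟨C, HC⟩ := H v hv hmv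
        exact ⟨C, fun _ _ h hh hhp x hx => (HC h hh hhp x hx).symm⟩
      · exact absurd h1 (hne i j hij.1)
    · exact ⟨1, le_rfl, fun v _ _ => ⟨0, fun h1 h2 => absurd ⟨h1, h2⟩ hij⟩⟩
  choose m hm HM using hpair
  obtain ⟨v, hv⟩ : ∃ v : ℕ, v = (∏ i, N i) * (∏ i, ∏ j, m i j) * V := ⟨_, rfl⟩
  have hv1 : 1 ≤ v := by
    rw [hv]
    exact Nat.mul_pos (Nat.mul_pos (Finset.prod_pos fun i _ => hN i)
      (Finset.prod_pos fun i _ => Finset.prod_pos fun j _ => hm i j)) hV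
  have hNv : ∀ i, N i ∣ v := fun i => by
    rw [hv, mul_assoc]
    exact (Finset.dvd_prod_of_mem N (Finset.mem_univ i)).trans (dvd_mul_right _ _)
  have hmv : ∀ i j, m i j ∣ v := fun i j => by
    rw [hv]
    refine Dvd.dvd.mul_right (Dvd.dvd.mul_left ?_ _) _
    exact (Finset.dvd_prod_of_mem (m i) (Finset.mem_univ j)).trans
      (Finset.dvd_prod_of_mem (fun i => ∏ j, m i j) (Finset.mem_univ i))
  refine ⟨v, hv1, by rw [hv]; exact dvd_mul_left _ _,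
    fun i => irr_deg_three h3 (hw i) hv1 (HN i v (hNv i)), ?_⟩
  choose C HC using fun i j => HM i j v hv1 (hmv i j)
  refine ⟨∑ i, ∑ j, C i j, fun h hh hhp x hx => all_but_two fun i j l hij hil hjl => ?_⟩
  have hle : ∀ i j, C i j * x ^ 4 ≤ (∑ i, ∑ j, C i j) * x ^ 4 := fun i j =>
    Nat.mul_le_mul_right _
      ((Finset.single_le_sum (f := fun j => C i j) (fun _ _ => Nat.zero_le _)
        (Finset.mem_univ j)).trans
        (Finset.single_le_sum (f := fun i => ∑ j, C i j) (fun _ _ => Nat.zero_le _)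
          (Finset.mem_univ i)))
  have key : ∀ i j, i ≠ j → 0 < Φ (w i) * Φ (w j) →
      Occ 1 h (minpoly ℤ ((v : K) * w i)) x ((∑ i, ∑ j, C i j) * x ^ 4) ∨
      Occ 1 h (minpoly ℤ ((v : K) * w j)) x ((∑ i, ∑ j, C i j) * x ^ 4) := fun i j h1 h2 =>
    (HC i j h1 h2 h hh hhp x hx).imp (fun H => H.mono (hle i j)) (fun H => H.mono (hle i j))
  -- two of three nonzero numbers have the same sign
  have hi := hΦ (w i) (hw i)
  have hj := hΦ (w j) (hw j)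
  have hl := hΦ (w l) (hw l)
  rcases lt_or_gt_of_ne hi with a | a <;> rcases lt_or_gt_of_ne hj with b | b <;>
    rcases lt_or_gt_of_ne hl with c | c
  · rcases key i j hij (mul_pos_of_neg_of_neg a b) with H | H
    · exact Or.inl H
    · exact Or.inr (Or.inl H)
  · rcases key i j hij (mul_pos_of_neg_of_neg a b) with H | H
    · exact Or.inl H
    · exact Or.inr (Or.inl H)
  · rcases key i l hil (mul_pos_of_neg_of_neg a c) with H | H
    · exact Or.inl H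
    · exact Or.inr (Or.inr H)
  · rcases key j l hjl (mul_pos b c) with H | H
    · exact Or.inr (Or.inl H)
    · exact Or.inr (Or.inr H)
  · rcases key j l hjl (mul_pos_of_neg_of_neg b c) with H | H
    · exact Or.inr (Or.inl H)
    · exact Or.inr (Or.inr H)
  · rcases key i l hil (mul_pos a c) with H | H
    · exact Or.inl H
    · exact Or.inr (Or.inr H)
  · rcases key i j hij (mul_pos a b) with H | H
    · exact Or.inl H
    · exact Or.inr (Or.inl H)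
  · rcases key i j hij (mul_pos a b) with H | H
    · exact Or.inl H
    · exact Or.inr (Or.inl H)

/-- Elements of the field of a number of degree three: all but at most two. -/
theorem unav_many {p : ℕ} (hp : p.Prime) {t : ℂ} {k : ℕ} {z : Fin (k + 2) → ℂ} {V : ℕ}
    (hd : (minpoly ℚ t).natDegree = 3)
    (hz : ∀ i, z i ∈ IntermediateField.adjoin ℚ {t} ∧ (minpoly ℚ (z i)).natDegree = 3)
    (hne : ∀ i j, i ≠ j → ∀ a b : ℚ, 0 < a → z i ≠ a * z j + b) (hV : 1 ≤ V) :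
    ∃ v : ℕ, 1 ≤ v ∧ V ∣ v ∧ Unav p 3 (k + 2) k 4 1 (fun i => minpoly ℤ (v * z i)) := by
  obtain ⟨K, _, _, φ, θ, hθ, h3, -, hZ, hQ⟩ := CUB3.exists_field (by norm_num) hd
  have hdθ : (minpoly ℚ θ).natDegree = 3 := by rw [← hQ, hθ, hd]
  have hb := CUB3.not_bot (by norm_num) hdθ
  have hpre : ∀ i, ∃ w : K, φ w = z i := by
    intro i
    obtain ⟨r, s, e⟩ := (IntermediateField.mem_adjoin_simple_iff ℚ (z i)).1 (hz i).1
    refine ⟨aeval θ r / aeval θ s, ?_⟩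
    rw [map_div₀, CUB3.map_aeval, CUB3.map_aeval, hθ, e]
  choose w hw using hpre
  have hwb : ∀ i, w i ∉ (⊥ : IntermediateField ℚ K) := fun i =>
    CUB3.not_bot (n := 3) (by norm_num) (by rw [← hQ, hw]; exact (hz i).2)
  obtain ⟨v, hv1, hVv, H⟩ := many_field h3 hp hb hwb (fun i j hij hA => by
    obtain ⟨a, b, ha, e⟩ := hA
    apply hne j i hij.symm a b ha
    rw [← hw j, e, ← hw i, map_add, map_mul, map_ratCast, map_ratCast]) hV
  refine ⟨v, hv1, hVv, ?_⟩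
  have e : (fun i => minpoly ℤ ((v : ℂ) * z i)) = fun i => minpoly ℤ ((v : K) * w i) := by
    funext i
    rw [← hZ, map_mul, map_natCast, hw]
  rw [e]
  exact H

/-- Quintic fields. -/
theorem unav_quintic {p : ℕ} (hp : p.Prime) {y : ℂ} {ε : ℝ} {V : ℕ}
    (hd : (minpoly ℚ y).natDegree = 5) (hε : 0 < ε) (hV : 1 ≤ V) :
    ∃ v : ℕ, 1 ≤ v ∧ V ∣ v ∧ ∃ P : Fin 14 → ℚ[X],
      (∀ i, ∀ w : ℂ, aeval w (minpoly ℚ y) = 0 → ‖aeval w (P i) - w‖ < ε) ∧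
      Unav p 5 14 1 2 0 (fun i => minpoly ℤ (v * aeval y (P i))) := by
  obtain ⟨K, _, _, φ, θ, hθ, h5, -, hZ, hQ⟩ := CUB3.exists_field (by norm_num) hd
  have hdθ : (minpoly ℚ θ).natDegree = 5 := by rw [← hQ, hθ, hd]
  have hb := CUB3.not_bot (by norm_num) hdθ
  obtain ⟨z, hz, m, hm, H⟩ := Pool.Agent.Lib_helper3.QUI.quintics1 h5 hb hε hp
  have hv1 : 1 ≤ m * V := Nat.mul_pos hm hV
  obtain ⟨hint, C, hC⟩ := H (m * V) hv1 (dvd_mul_right _ _)
  choose P hP using fun i => CUB3.exists_poly (x := θ) (by rw [hdθ, h5]) (z i)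
  have e : ∀ i, minpoly ℤ (((m * V : ℕ) : ℂ) * aeval y (P i)) =
      minpoly ℤ (((m * V : ℕ) : K) * z i) := by
    intro i
    rw [← hZ, map_mul, map_natCast, ← hP i, CUB3.map_aeval, hθ]
  refine ⟨m * V, hv1, dvd_mul_left _ _, P, fun i w hw => ?_, Unav.of (fun i => ?_)
    ⟨C, fun h hh hhp x hx => ?_⟩⟩
  · rw [← hθ, hQ] at hw
    obtain ⟨ψ, hψ⟩ := CUB3.exists_emb hw
    have h1 := (hz i).2 ψ
    rwa [hψ, ← hP i, CUB3.map_aeval, hψ] at h1
  · rw [e]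
    exact irr_deg (hint i) ((Pool.Agent.Lib_helper3.QUI.deg_five h5
      (nsmul_not_mem (hz i).1 hv1)).trans h5)
  · obtain ⟨i, hi⟩ := (hC h hh hhp).1 x hx
    refine ⟨i, ?_⟩
    rw [e]
    exact occ_zero hi

end Pool.Agent.Lib_helper11.CUB4
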