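import Mathlib
import Pool.Agent.Lib_helper11.CUB4.Transfer
import Pool.Agent.Lib_helper3.CNT2.Final
import Pool.Agent.Lib_helper48.DEG5.Quintic
import Pool.Agent.Lib_helper48.EVEN.Final
import Pool.Agent.Lib_helper73.DEG.D9
import Pool.Agent.Lib_helper73.DEG.D11
import Pool.Agent.Lib_helper73.DEG.D13
import Pool.Agent.Lib_helper73.DEG.D19
import Pool.Agent.Lib_helper73.DEG.D21
import Pool.Agent.Lib_helper73.DEG.D23
import Pool.Agent.Lib_helper73.DEG.D25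
import Pool.Agent.Lib_helper73.DEG.D27
import Pool.Agent.Lib_helper73.DEG.D29

/-!
Unavoidable tuples of polynomials of odd and of even degrees.
-/

namespace Pool.Agent.Lib_helper11.CUB4

open Pool.Agent.Lib_helper11.CUB Polynomial

/-- `k` polynomials of degree `d`. -/
theorem odd_of {p d k : ℕ} (hk : k = 2 * Nat.log 2 d + 2) (H : ∃ g : Fin k → Polynomial ℤ,
    (∀ i, (g i).Monic ∧ Irreducible (g i) ∧ (g i).natDegree = d) ∧ ∃ C : ℕ, ∀ h : ℕ → ℤ,
      CM h → h p = -1 → ∀ x : ℕ, 1 ≤ x → ∃ i, ∀ s : ℤ, (s = 1 ∨ s = -1) →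
        x < 4 * ((Finset.Icc x (C * x ^ 2)).filter (fun n : ℕ =>
          h ((g i).eval (n : ℤ)).natAbs = s)).card) :
    ∃ T : Fin (2 * Nat.log 2 d + 2) → ℤ[X], Unav p d (2 * Nat.log 2 d + 2) 1 2 1 T := by
  subst hk
  obtain ⟨g, hg, C, hC⟩ := H
  refine ⟨g, Unav.of (fun i => (hg i).2) ⟨C, fun h hh hhp x hx => ?_⟩⟩
  obtain ⟨i, hi⟩ := hC h hh hhp x hx
  exact ⟨i, occ_one hi⟩

theorem odd_tower {p : ℕ} (hp : p.Prime) {j : ℕ} (hj : 2 ≤ j) :
    ∃ T : Fin (2 * Nat.log 2 (2 ^ j - 1) + 2) → ℤ[X],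
      Unav p (2 ^ j - 1) (2 * Nat.log 2 (2 ^ j - 1) + 2) 1 2 1 T := by
  refine odd_of ?_ (Pool.Agent.Lib_helper3.CNT2.count_tower2 j hj hp)
  have hlog : Nat.log 2 (2 ^ j - 1) = j - 1 := by
    obtain ⟨i, rfl⟩ : ∃ i, j = i + 1 := ⟨j - 1, by omega⟩
    have h0 : 1 ≤ 2 ^ i := Nat.one_le_two_pow
    have h1 : 2 ^ (i + 1) = 2 * 2 ^ i := by rw [pow_succ]; ring
    rw [Nat.add_sub_cancel]
    apply Nat.log_eq_of_pow_le_of_lt_pow <;> omega
  rw [hlog]; omega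

/-- Odd degrees: `5`, `2 ^ j - 1`, and those up to `31` except `17` for the prime `2`. -/
theorem unav_odd {p : ℕ} (hp : p.Prime) {d : ℕ} (hodd : Odd d) (hd3 : 3 ≤ d)
    (hd : d = 5 ∨ (∃ j : ℕ, d = 2 ^ j - 1) ∨ (p = 2 ∧ d ≤ 31 ∧ d ≠ 17)) :
    ∃ T : Fin (2 * Nat.log 2 d + 2) → ℤ[X], Unav p d (2 * Nat.log 2 d + 2) 1 2 1 T := by
  rcases hd with rfl | ⟨j, rfl⟩ | ⟨rfl, h31, h17⟩
  · exact odd_of (by norm_num [Nat.log]) (Pool.Agent.Lib_helper48.DEG5.count_5 hp)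
  · apply odd_tower hp
    by_contra hcon
    push Not at hcon
    interval_cases j <;> omega
  · obtain ⟨m, hm⟩ := hodd
    have hm6 : m ≤ 15 := by omega
    have hm1 : 1 ≤ m := by omega
    have hm8 : m ≠ 8 := by omega
    subst hm
    interval_cases m
    · exact odd_tower hp (j := 2) (by norm_num)
    · exact odd_of (by norm_num [Nat.log]) (Pool.Agent.Lib_helper48.DEG5.count_5 hp)
    · exact odd_tower hp (j := 3) (by norm_num)
    · exact odd_of (by norm_num [Nat.log]) Pool.Agent.Lib_helper73.DEG.count_9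
    · exact odd_of (by norm_num [Nat.log]) Pool.Agent.Lib_helper73.DEG.count_11
    · exact odd_of (by norm_num [Nat.log]) Pool.Agent.Lib_helper73.DEG.count_13
    · exact odd_tower hp (j := 4) (by norm_num)
    · exact absurd rfl hm8
    · exact odd_of (by norm_num [Nat.log]) Pool.Agent.Lib_helper73.DEG.count_19
    · exact odd_of (by norm_num [Nat.log]) Pool.Agent.Lib_helper73.DEG.count_21
    · exact odd_of (by norm_num [Nat.log]) Pool.Agent.Lib_helper73.DEG.count_23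
    · exact odd_of (by norm_num [Nat.log]) Pool.Agent.Lib_helper73.DEG.count_25
    · exact odd_of (by norm_num [Nat.log]) Pool.Agent.Lib_helper73.DEG.count_27
    · exact odd_of (by norm_num [Nat.log]) Pool.Agent.Lib_helper73.DEG.count_29
    · exact odd_tower hp (j := 5) (by norm_num)

/-- Even degrees. -/
theorem unav_even {p : ℕ} (hp : p.Prime) {j : ℕ} (hj : 2 ≤ j) :
    ∃ g : Fin (9 * j) → ℤ[X],
      Unav p (2 * (2 ^ j - 1)) (9 * j) 1 2 0 (fun i => (g i).comp (X ^ 2)) := by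
  obtain ⟨g, hg, C, hC⟩ := Pool.Agent.Lib_helper48.EVEN.even_tower j hj hp
  refine ⟨g, Unav.of (fun i => ⟨(hg i).2.2, ?_⟩) ⟨C, fun h hh hhp x hx => ?_⟩⟩
  · rw [natDegree_comp, natDegree_X_pow, (hg i).2.1]
    ring
  · obtain ⟨i, hi⟩ := hC h hh hhp x hx
    exact ⟨i, occ_zero hi⟩

end Pool.Agent.Lib_helper11.CUB4
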